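import Mathlib

/-!
# Central simple algebras of degree 4 and 3 by generators
-/

set_option autoImplicit false

namespace Pool.Agent.Helper75.PX

/-- trace of the left multiplication -/
noncomputable def trL (K : Type*) {D : Type*} [Field K] [Ring D] [Algebra K D] (x : D) : K :=
  LinearMap.trace K D (LinearMap.mulLeft K x)

/-- the element with coordinates `u` in `1, α, β, αβ` -/
def uE {K A : Type*} [Field K] [Ring A] [Algebra K A] (α β : A) (u : Fin 4 → K) : A :=
  u 0 • (1 : A) + u 1 • α + u 2 • β + u 3 • (α * β)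

/-- generators of a crossed product of degree four, normalised -/
structure D4 {K A : Type*} [Field K] [Ring A] [Algebra K A] (α β z w : A) (a b p r : K)
    (u : Fin 4 → K) : Prop where
  haa : α * α = algebraMap K A a
  hbb : β * β = algebraMap K A b
  hab : α * β = β * α
  hza : z * α = -(α * z)
  hzb : z * β = β * z
  hwa : w * α = α * w
  hwb : w * β = -(β * w)
  hzz : z * z = algebraMap K A p + β
  hww : w * w = algebraMap K A r + α
  hzw : z * w = uE α β u * (w * z)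
  a0 : a ≠ 0
  b0 : b ≠ 0
  uz : IsUnit z
  uw : IsUnit w

/-- generators of a symbol algebra of degree three -/
structure D3 {K A : Type*} [Field K] [Ring A] [Algebra K A] (ζ : K) (i j : A) (c d : K) : Prop where
  hi : i * i * i = algebraMap K A c
  hj : j * j * j = algebraMap K A d
  hij : j * i = ζ • (i * j)
  c0 : c ≠ 0
  d0 : d ≠ 0

/-- the sixteen monomials -/
def e4 {A : Type*} [Ring A] (α β z w : A) (s : Fin 2 × Fin 2 × Fin 2 × Fin 2) : A :=
  α ^ (s.1 : ℕ) * β ^ (s.2.1 : ℕ) * w ^ (s.2.2.1 : ℕ) * z ^ (s.2.2.2 : ℕ)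

/-- the nine monomials -/
def e3 {A : Type*} [Ring A] (i j : A) (s : Fin 3 × Fin 3) : A := i ^ (s.1 : ℕ) * j ^ (s.2 : ℕ)

/-- the relations between the parameters: norms of `u` -/
def Rel {K : Type*} [Field K] (a b p r : K) (u : Fin 4 → K) : Prop :=
  (u 0 ^ 2 + u 2 ^ 2 * b - a * (u 1 ^ 2 + u 3 ^ 2 * b)) * p -
      (2 * u 0 * u 2 - 2 * a * u 1 * u 3) * b = p ∧
  (2 * u 0 * u 2 - 2 * a * u 1 * u 3) * p -
      (u 0 ^ 2 + u 2 ^ 2 * b - a * (u 1 ^ 2 + u 3 ^ 2 * b)) = 1 ∧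
  (u 0 ^ 2 + u 1 ^ 2 * a - b * (u 2 ^ 2 + u 3 ^ 2 * a)) * r +
      (2 * u 0 * u 1 - 2 * b * u 2 * u 3) * a = r ∧
  (u 0 ^ 2 + u 1 ^ 2 * a - b * (u 2 ^ 2 + u 3 ^ 2 * a)) +
      (2 * u 0 * u 1 - 2 * b * u 2 * u 3) * r = -1

end Pool.Agent.Helper75.PX
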