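import Pool.Agent.Helper75.PX.Main2Aux
import Pool.Agent.Helper74.PX.RK3

set_option autoImplicit false

universe u

namespace Pool.Agent.Helper75.PX

/-- every algebra of degree twelve is defined over a field of transcendence degree five -/
theorem st_MAIN2 : ST_MAIN2.{u} := main2_of_rk3 st_RK3

end Pool.Agent.Helper75.PX
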