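import Pool.Agent.Helper75.PX.Pd6

set_option autoImplicit false

universe u

open Module TensorProduct

namespace Pool.Agent.Helper75.PX

theorem m12_of (hC4 : ST_C4.{u}) (hC3 : ST_C3.{u}) (hB4 : ST_B4.{u}) (hB3 : ST_B3.{u})
    (hREL : ST_REL.{u}) (hNZ : ST_NZ.{u}) (hSC4 : ST_SC4.{u})
    (hT5 : ST_T5.{u}) (hCL4 : ST_CL4.{u}) (hCL3 : ST_CL3.{u}) (hDESC : ST_DESC.{u})
    (hTCS : ST_TCS.{u}) (hSC3 : ST_SC3.{u}) (hC3c : ST_C3c.{u}) (hB3c : ST_B3c.{u})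
    (hSC3c : ST_SC3c.{u}) (hCL3c : ST_CL3c.{u}) (hT6 : ST_T6.{u}) (hPDA : ST_PDA.{u}) :
    ST_M12.{u} := by
  intro F K A _ _ _ _ _ _ _ h2F h3F hA
  have h2 : (2 : K) ≠ 0 := by
    intro h; apply h2F; apply (algebraMap F K).injective; rw [map_ofNat, map_zero]; exact h
  have h3 : (3 : K) ≠ 0 := by
    intro h; apply h3F; apply (algebraMap F K).injective; rw [map_ofNat, map_zero]; exact h
  obtain ⟨A₄, A₃, _, _, _, _, _, _, _, _, h16, h9, ⟨eA⟩⟩ := hPDA K A h2 h3 hA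
  have : FiniteDimensional K A₄ := FiniteDimensional.of_finrank_pos (by omega)
  have : FiniteDimensional K A₃ := FiniteDimensional.of_finrank_pos (by omega)
  obtain ⟨α₀, β₀, z₀, w₀, a₀, b₀, p₀, r₀, v₀, h40⟩ := hC4 K A₄ h16 h2 h3
  obtain ⟨hN1, hN2⟩ := hNZ K A₄ α₀ β₀ z₀ w₀ a₀ b₀ p₀ r₀ v₀ h2 h40
  by_cases hz : ∃ ζ : K, ζ ^ 2 + ζ + 1 = 0
  · obtain ⟨ζ, hζ⟩ := hz
    obtain ⟨i₀, j₀, c₀, d₀, h30⟩ := hC3 K A₃ ζ h9 h3 hζ
    have hl : c₀ / (p₀ ^ 2 - b₀) ≠ 0 := div_ne_zero h30.c0 hN1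
    have hm : d₀ / (r₀ ^ 2 - a₀) ≠ 0 := div_ne_zero h30.d0 hN2
    set l : K := c₀ / (p₀ ^ 2 - b₀) with hldef
    set m : K := d₀ / (r₀ ^ 2 - a₀) with hmdef
    have h4 := hSC4 K A₄ α₀ β₀ z₀ w₀ a₀ b₀ p₀ r₀ v₀ l m hl hm h40
    have h3' := hSC3 K A₃ ζ i₀ j₀ c₀ d₀ l m hl hm h30
    have hc0 : c₀ = l * (p₀ ^ 2 - b₀) := by rw [hldef]; field_simp
    have hd0 : d₀ = m * (r₀ ^ 2 - a₀) := by rw [hmdef]; field_simp
    have hc : c₀ * l ^ 3 = (l ^ 2 * p₀) ^ 2 - l ^ 4 * b₀ := by rw [hc0]; ring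
    have hd : d₀ * m ^ 3 = (m ^ 2 * r₀) ^ 2 - m ^ 4 * a₀ := by rw [hd0]; ring
    rw [hc, hd] at h3'
    clear_value l m
    revert h4 h3'
    generalize m ^ 2 • α₀ = α
    generalize l ^ 2 • β₀ = β
    generalize l • z₀ = z
    generalize m • w₀ = w
    generalize l • i₀ = i
    generalize m • j₀ = j
    generalize m ^ 4 * a₀ = a
    generalize l ^ 4 * b₀ = b
    generalize l ^ 2 * p₀ = p
    generalize m ^ 2 * r₀ = r
    generalize ![v₀ 0, v₀ 1 / m ^ 2, v₀ 2 / l ^ 2, v₀ 3 / (l ^ 2 * m ^ 2)] = v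
    intro h4 h3'
    have hrel := hREL K A₄ α β z w a b p r v h2 h4
    obtain ⟨hM1, hM2⟩ := hNZ K A₄ α β z w a b p r v h2 h4
    have htr := hT6 F K _ ζ 5 (hT5 F K a b p r v h2 h4.a0 h4.b0 hM1 hM2 hrel)
    set L : IntermediateField F K :=
      IntermediateField.adjoin F ((({a, b, p, r} : Set K) ∪ Set.range v) ∪ {ζ}) with hL
    have hsub : ((({a, b, p, r} : Set K) ∪ Set.range v) ∪ {ζ}) ⊆ (L : Set K) :=
      IntermediateField.subset_adjoin F _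
    have haL : a ∈ L := hsub (Or.inl (Or.inl (by simp)))
    have hbL : b ∈ L := hsub (Or.inl (Or.inl (by simp)))
    have hpL : p ∈ L := hsub (Or.inl (Or.inl (by simp)))
    have hrL : r ∈ L := hsub (Or.inl (Or.inl (by simp)))
    have hvL : ∀ k, v k ∈ L := fun k => hsub (Or.inl (Or.inr ⟨k, rfl⟩))
    have hζL : ζ ∈ L := hsub (Or.inr rfl)
    have hcL : p ^ 2 - b ∈ L := L.sub_mem (pow_mem hpL 2) hbL
    have hdL : r ^ 2 - a ∈ L := L.sub_mem (pow_mem hrL 2) haL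
    clear_value L
    obtain ⟨B, iB1, iB2, hB1, hB2, hB3, ⟨hB4⟩⟩ := descTensor hDESC hTCS L _ _ (e4 α β z w)
      (e3 i j) (hB4 K A₄ α β z w a b p r v h2 h4) (hB3 K A₃ ζ i j _ _ h3 hζ h3')
      (by rw [h16]; simp) (by rw [h9]; simp)
      (Submodule.subset_span ⟨(0, 0, 0, 0), by simp [e4]⟩)
      (Submodule.subset_span ⟨(0, 0), by simp [e3]⟩)
      (hCL4 F K A₄ L α β z w a b p r v h4 haL hbL hpL hrL hvL)
      (hCL3 F K A₃ L ζ i j _ _ h3' hζL hζ hcL hdL)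
    exact ⟨L, B, iB1, iB2, by simpa using htr, hB1, hB2, by rw [hB3, h16, h9],
      ⟨hB4.trans eA.symm⟩⟩
  · have hz' : ∀ ζ : K, ζ ^ 2 + ζ + 1 ≠ 0 := fun ζ h => hz ⟨ζ, h⟩
    obtain ⟨y, u₀, t, c₀, h30⟩ := hC3c K A₃ h9 h2 h3 hz'
    have hl : c₀ / (p₀ ^ 2 - b₀) ≠ 0 := div_ne_zero h30.c0 hN1
    set l : K := c₀ / (p₀ ^ 2 - b₀) with hldef
    have h4 := hSC4 K A₄ α₀ β₀ z₀ w₀ a₀ b₀ p₀ r₀ v₀ l 1 hl one_ne_zero h40
    have h3' := hSC3c K A₃ y u₀ t c₀ l hl h30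
    have hc0 : c₀ = l * (p₀ ^ 2 - b₀) := by rw [hldef]; field_simp
    have hc : c₀ * l ^ 3 = (l ^ 2 * p₀) ^ 2 - l ^ 4 * b₀ := by rw [hc0]; ring
    rw [hc] at h3'
    clear_value l
    revert h4 h3'
    generalize (1 : K) ^ 2 • α₀ = α
    generalize l ^ 2 • β₀ = β
    generalize l • z₀ = z
    generalize (1 : K) • w₀ = w
    generalize l • u₀ = u
    generalize (1 : K) ^ 4 * a₀ = a
    generalize l ^ 4 * b₀ = b
    generalize l ^ 2 * p₀ = p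
    generalize (1 : K) ^ 2 * r₀ = r
    generalize ![v₀ 0, v₀ 1 / (1 : K) ^ 2, v₀ 2 / l ^ 2, v₀ 3 / (l ^ 2 * (1 : K) ^ 2)] = v
    intro h4 h3'
    have hrel := hREL K A₄ α β z w a b p r v h2 h4
    obtain ⟨hM1, hM2⟩ := hNZ K A₄ α β z w a b p r v h2 h4
    have htr := hT6 F K _ t 5 (hT5 F K a b p r v h2 h4.a0 h4.b0 hM1 hM2 hrel)
    set L : IntermediateField F K :=
      IntermediateField.adjoin F ((({a, b, p, r} : Set K) ∪ Set.range v) ∪ {t}) with hL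
    have hsub : ((({a, b, p, r} : Set K) ∪ Set.range v) ∪ {t}) ⊆ (L : Set K) :=
      IntermediateField.subset_adjoin F _
    have haL : a ∈ L := hsub (Or.inl (Or.inl (by simp)))
    have hbL : b ∈ L := hsub (Or.inl (Or.inl (by simp)))
    have hpL : p ∈ L := hsub (Or.inl (Or.inl (by simp)))
    have hrL : r ∈ L := hsub (Or.inl (Or.inl (by simp)))
    have hvL : ∀ k, v k ∈ L := fun k => hsub (Or.inl (Or.inr ⟨k, rfl⟩))
    have htL : t ∈ L := hsub (Or.inr rfl)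
    have hcL : p ^ 2 - b ∈ L := L.sub_mem (pow_mem hpL 2) hbL
    clear_value L
    obtain ⟨B, iB1, iB2, hB1, hB2, hB3, ⟨hB4⟩⟩ := descTensor hDESC hTCS L _ _ (e4 α β z w)
      (e3c y u) (hB4 K A₄ α β z w a b p r v h2 h4) (hB3c K A₃ y u t _ h3 hz' h3')
      (by rw [h16]; simp) (by rw [h9]; simp)
      (Submodule.subset_span ⟨(0, 0, 0, 0), by simp [e4]⟩)
      (Submodule.subset_span ⟨(0, 0), by simp [e3c]⟩)
      (hCL4 F K A₄ L α β z w a b p r v h4 haL hbL hpL hrL hvL)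
      (hCL3c F K A₃ L y u t _ h3' htL hcL)
    exact ⟨L, B, iB1, iB2, by simpa using htr, hB1, hB2, by rw [hB3, h16, h9],
      ⟨hB4.trans eA.symm⟩⟩

theorem adj3 (hT6 : ST_T6.{u}) (F K : Type u) [Field F] [Field K] [Algebra F K] (a b t : K) :
    Algebra.trdeg F (IntermediateField.adjoin F (((∅ ∪ {a}) ∪ {b}) ∪ {t} : Set K)) ≤ 3 := by
  have h0 : Algebra.trdeg F (IntermediateField.adjoin F (∅ : Set K)) ≤ ((0 : ℕ) : Cardinal) := by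
    rw [IntermediateField.adjoin_empty]
    have : Algebra.IsAlgebraic F (⊥ : IntermediateField F K) := inferInstance
    rw [trdeg_eq_zero]
    exact zero_le
  have h1 := hT6 F K _ a 0 h0
  have h2 := hT6 F K _ b 1 h1
  have h3 := hT6 F K _ t 2 h2
  simpa using h3

theorem m6_of (hQ4 : ST_Q4.{u}) (hC3 : ST_C3.{u}) (hB2 : ST_B2.{u}) (hB3 : ST_B3.{u})
    (hSC2 : ST_SC2.{u}) (hCL2 : ST_CL2.{u}) (hCL3 : ST_CL3.{u}) (hDESC : ST_DESC.{u})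
    (hTCS : ST_TCS.{u}) (hSC3 : ST_SC3.{u}) (hC3c : ST_C3c.{u}) (hB3c : ST_B3c.{u})
    (hSC3c : ST_SC3c.{u}) (hCL3c : ST_CL3c.{u}) (hT6 : ST_T6.{u}) (hPD6 : ST_PD6.{u}) :
    ST_M6.{u} := by
  intro F K A _ _ _ _ _ _ _ h2F h3F hA
  have h2 : (2 : K) ≠ 0 := by
    intro h; apply h2F; apply (algebraMap F K).injective; rw [map_ofNat, map_zero]; exact h
  have h3 : (3 : K) ≠ 0 := by
    intro h; apply h3F; apply (algebraMap F K).injective; rw [map_ofNat, map_zero]; exact h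
  obtain ⟨A₂, A₃, _, _, _, _, _, _, _, _, h4, h9, ⟨eA⟩⟩ := hPD6 K A h2 h3 hA
  have : FiniteDimensional K A₂ := FiniteDimensional.of_finrank_pos (by omega)
  have : FiniteDimensional K A₃ := FiniteDimensional.of_finrank_pos (by omega)
  obtain ⟨g₀, k₀, a₀, b₀, hq1, hq2, hq3, ha₀, hb₀⟩ := hQ4 K A₂ h4 h2
  have h20 : D2 g₀ k₀ a₀ b₀ := ⟨hq1, hq2, hq3, ha₀, hb₀⟩
  by_cases hz : ∃ ζ : K, ζ ^ 2 + ζ + 1 = 0
  · obtain ⟨ζ, hζ⟩ := hz
    obtain ⟨i₀, j₀, c₀, d₀, h30⟩ := hC3 K A₃ ζ h9 h3 hζ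
    have hl : c₀ / b₀ ≠ 0 := div_ne_zero h30.c0 hb₀
    have hm : d₀ / a₀ ≠ 0 := div_ne_zero h30.d0 ha₀
    set l : K := c₀ / b₀ with hldef
    set m : K := d₀ / a₀ with hmdef
    have hq := hSC2 K A₂ g₀ k₀ a₀ b₀ (m ^ 2) (l ^ 2) (pow_ne_zero 2 hm) (pow_ne_zero 2 hl) h20
    have h3' := hSC3 K A₃ ζ i₀ j₀ c₀ d₀ l m hl hm h30
    have hc0 : c₀ = l * b₀ := by rw [hldef]; field_simp
    have hd0 : d₀ = m * a₀ := by rw [hmdef]; field_simp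
    have hc : c₀ * l ^ 3 = b₀ * (l ^ 2) ^ 2 := by rw [hc0]; ring
    have hd : d₀ * m ^ 3 = a₀ * (m ^ 2) ^ 2 := by rw [hd0]; ring
    rw [hc, hd] at h3'
    clear_value l m
    revert hq h3'
    generalize m ^ 2 • g₀ = g
    generalize l ^ 2 • k₀ = k
    generalize l • i₀ = i
    generalize m • j₀ = j
    generalize a₀ * (m ^ 2) ^ 2 = a
    generalize b₀ * (l ^ 2) ^ 2 = b
    intro hq h3'
    have htr := adj3 hT6 F K a b ζ
    set L : IntermediateField F K :=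
      IntermediateField.adjoin F (((∅ ∪ {a}) ∪ {b}) ∪ {ζ} : Set K) with hL
    have hsub : (((∅ ∪ {a}) ∪ {b}) ∪ {ζ} : Set K) ⊆ (L : Set K) :=
      IntermediateField.subset_adjoin F _
    have haL : a ∈ L := hsub (by simp)
    have hbL : b ∈ L := hsub (by simp)
    have hζL : ζ ∈ L := hsub (by simp)
    clear_value L
    obtain ⟨B, iB1, iB2, hB1, hB2, hB3, ⟨hB4⟩⟩ := descTensor hDESC hTCS L _ _ (e2q g k)
      (e3 i j) (hB2 K A₂ g k a b h2 hq) (hB3 K A₃ ζ i j _ _ h3 hζ h3')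
      (by rw [h4]; simp) (by rw [h9]; simp)
      (Submodule.subset_span ⟨(0, 0), by simp [e2q]⟩)
      (Submodule.subset_span ⟨(0, 0), by simp [e3]⟩)
      (hCL2 F K A₂ L g k a b hq haL hbL)
      (hCL3 F K A₃ L ζ i j _ _ h3' hζL hζ hbL haL)
    exact ⟨L, B, iB1, iB2, htr, hB1, hB2, by rw [hB3, h4, h9], ⟨hB4.trans eA.symm⟩⟩
  · have hz' : ∀ ζ : K, ζ ^ 2 + ζ + 1 ≠ 0 := fun ζ h => hz ⟨ζ, h⟩
    obtain ⟨y, u₀, t, c₀, h30⟩ := hC3c K A₃ h9 h2 h3 hz'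
    have hl : c₀ / b₀ ≠ 0 := div_ne_zero h30.c0 hb₀
    set l : K := c₀ / b₀ with hldef
    have hq := hSC2 K A₂ g₀ k₀ a₀ b₀ 1 (l ^ 2) one_ne_zero (pow_ne_zero 2 hl) h20
    have h3' := hSC3c K A₃ y u₀ t c₀ l hl h30
    have hc0 : c₀ = l * b₀ := by rw [hldef]; field_simp
    have hc : c₀ * l ^ 3 = b₀ * (l ^ 2) ^ 2 := by rw [hc0]; ring
    rw [hc] at h3'
    clear_value l
    revert hq h3'
    generalize (1 : K) • g₀ = g
    generalize l ^ 2 • k₀ = k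
    generalize l • u₀ = u
    generalize a₀ * (1 : K) ^ 2 = a
    generalize b₀ * (l ^ 2) ^ 2 = b
    intro hq h3'
    have htr := adj3 hT6 F K a b t
    set L : IntermediateField F K :=
      IntermediateField.adjoin F (((∅ ∪ {a}) ∪ {b}) ∪ {t} : Set K) with hL
    have hsub : (((∅ ∪ {a}) ∪ {b}) ∪ {t} : Set K) ⊆ (L : Set K) :=
      IntermediateField.subset_adjoin F _
    have haL : a ∈ L := hsub (by simp)
    have hbL : b ∈ L := hsub (by simp)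
    have htL : t ∈ L := hsub (by simp)
    clear_value L
    obtain ⟨B, iB1, iB2, hB1, hB2, hB3, ⟨hB4⟩⟩ := descTensor hDESC hTCS L _ _ (e2q g k)
      (e3c y u) (hB2 K A₂ g k a b h2 hq) (hB3c K A₃ y u t _ h3 hz' h3')
      (by rw [h4]; simp) (by rw [h9]; simp)
      (Submodule.subset_span ⟨(0, 0), by simp [e2q]⟩)
      (Submodule.subset_span ⟨(0, 0), by simp [e3c]⟩)
      (hCL2 F K A₂ L g k a b hq haL hbL)
      (hCL3c F K A₃ L y u t _ h3' htL hbL)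
    exact ⟨L, B, iB1, iB2, htr, hB1, hB2, by rw [hB3, h4, h9], ⟨hB4.trans eA.symm⟩⟩

end Pool.Agent.Helper75.PX
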