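import Pool.Agent.Helper75.PX.Hand
import Pool.Agent.Helper75.PX.M126
import Pool.Agent.Helper63.PX.V3
import Pool.Agent.Helper49.PX.K3
import Pool.Agent.Helper24.PX.U3
import Pool.Agent.Helper14.PX.X3
import Pool.Agent.Helper76.PX.Y3
import Pool.Agent.Helper59.PX.C3c
import Pool.Agent.Helper45.PX.B3c
import Pool.Agent.Helper44.PX.SC3c
import Pool.Agent.Helper33.PX.CL3c
import Pool.Agent.Helper53.PX.T6
import Pool.Agent.Helper92.PX.B2
import Pool.Agent.Helper60.PX.SC2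
import Pool.Agent.Helper52.PX.CL2

set_option autoImplicit false

universe u

namespace Pool.Agent.Helper75.PX

theorem hand_C3c : ST_C3c.{u} := by
  have hSIMP : ST_SIMP.{u} := st_SIMP
  have hMPD : ST_MPD.{u} := st_MPD hSIMP
  have hMDV : ST_MDV.{u} := st_MDV
  have hTRZ : ST_TRZ.{u} := st_TRZ
  have hTRM : ST_TRM.{u} := st_TRM hMDV
  have hMIN : ST_MIN.{u} := st_MIN
  have hWA : ST_WA.{u} := st_WA
  have hI3 : ST_I3.{u} := st_I3 hMPD hMDV hTRZ hTRM hMIN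
  have hV3 : ST_V3.{u} := st_V3 hMPD hMDV
  have hU3 : ST_U3.{u} := st_U3 hMPD hMDV hTRM hMIN
  have hX3 : ST_X3.{u} := st_X3 hMPD hMDV hTRZ hTRM hMIN hI3 hV3 hU3
  have hY3 : ST_Y3.{u} := st_Y3 (st_K3 hMDV hMPD)
  exact st_C3c hWA hX3 hY3

theorem hand_C3 : ST_C3.{u} := by
  have hMPD : ST_MPD.{u} := st_MPD st_SIMP
  have hMDV : ST_MDV.{u} := st_MDV
  exact Pool.Agent.Helper51.PX.st_C3 st_WA (st_I3 hMPD hMDV st_TRZ (st_TRM hMDV) st_MIN) st_J3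

theorem hand_C4 : ST_C4.{u} := by
  have hMPD : ST_MPD.{u} := st_MPD st_SIMP
  have hMDV : ST_MDV.{u} := st_MDV
  have hTRM : ST_TRM.{u} := st_TRM hMDV
  have hA4 : ST_A4.{u} := st_A4 hMPD hMDV st_TRZ hTRM st_MIN
  have hG4 : ST_G4.{u} := Pool.Agent.Helper60.PX.st_G4 hMPD hMDV
  have hE4 : ST_E4.{u} := st_E4 hA4 st_G1 hG4 st_W4 st_CE
  exact st_C4 st_WA hE4 (st_Q4 st_WA hMPD hMDV) st_M4

/-- degree twelve over every field of characteristic not two or three -/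
theorem st_M12 : ST_M12.{u} := by
  have hTCS : ST_TCS.{u} := Pool.Agent.Helper2.PX.st_TCS st_SIMP
  exact m12_of hand_C4 hand_C3 (st_B4 st_I4) st_B3 (Pool.Agent.Helper9.PX.st_REL st_I4)
    Pool.Agent.Helper98.PX.st_NZ st_SC4 st_T5 st_CL4 st_CL3 st_DESC hTCS st_SC3 hand_C3c
    Pool.Agent.Helper45.PXB.st_B3c st_SC3c st_CL3c st_T6 (pda_of_rk3 st_RK3)

theorem hand_PD6 : ST_PD6.{u} := by
  have hTCS : ST_TCS.{u} := Pool.Agent.Helper2.PX.st_TCS st_SIMP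
  have hWA : ST_WA.{u} := st_WA
  have hEMB : ST_EMB.{u} := st_EMB st_SIMP
  have hKRO : ST_KRO.{u} := Pool.Agent.Helper2.PX.st_KRO
  have hINDG : ST_INDG.{u} := st_INDG hWA st_DIM st_MCR st_MMM st_MCS
  have hIND2 : ST_IND2.{u} := st_IND2 hEMB hKRO st_GOL st_RK2 hINDG hTCS
  have hIND3 : ST_IND3.{u} := st_IND3 hEMB hKRO st_GOL st_RK3 hINDG hTCS
  exact pd6_of hWA hIND2 hIND3 st_TM1 (st_TM2 st_TM1) st_MMM st_MCS st_UNI
    (st_CAN hWA st_MMM st_UNI) (Pool.Agent.Helper51.PX.st_OPP hTCS) hTCS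

/-- degree six over every field of characteristic not two or three -/
theorem st_M6 : ST_M6.{u} := by
  have hTCS : ST_TCS.{u} := Pool.Agent.Helper2.PX.st_TCS st_SIMP
  have hMPD : ST_MPD.{u} := st_MPD st_SIMP
  exact m6_of (st_Q4 st_WA hMPD st_MDV) hand_C3 st_B2 st_B3 st_SC2 st_CL2 st_CL3 st_DESC hTCS
    st_SC3 hand_C3c Pool.Agent.Helper45.PXB.st_B3c st_SC3c st_CL3c st_T6 hand_PD6

end Pool.Agent.Helper75.PX
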