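import Pool.Agent.Helper75.PX.Stmts5
import Pool.Agent.Helper75.PX.M126

set_option autoImplicit false

universe u

open Module TensorProduct

namespace Pool.Agent.Helper75.PX

/-- primary decomposition in degree twelve, every characteristic -/
def ST_PDAt : Prop := ∀ (K A : Type u) [Field K] [Ring A] [Algebra K A] [Algebra.IsCentral K A]
  [IsSimpleRing A], finrank K A = 144 →
  ∃ (A₄ A₃ : Type u) (_ : Ring A₄) (_ : Algebra K A₄) (_ : Ring A₃) (_ : Algebra K A₃),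
    Algebra.IsCentral K A₄ ∧ IsSimpleRing A₄ ∧ Algebra.IsCentral K A₃ ∧ IsSimpleRing A₃ ∧
    finrank K A₄ = 16 ∧ finrank K A₃ = 9 ∧ Nonempty (A ≃ₐ[K] (A₄ ⊗[K] A₃))

/-- primary decomposition, from the rows -/
theorem pdat_of (hIND2 : ST_IND2t.{u}) (hIND3 : ST_IND3t.{u}) (hTM1 : ST_TM1.{u})
    (hTM2 : ST_TM2.{u}) (hMMM : ST_MMM.{u}) (hMCS : ST_MCS.{u}) (hCAN : ST_CAN.{u})
    (hOPP : ST_OPP.{u}) (hTCS : ST_TCS.{u}) : ST_PDAt.{u} := by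
  intro K A _ _ _ _ _ hA
  have : FiniteDimensional K A := FiniteDimensional.of_finrank_pos (by omega)
  obtain ⟨A2, _, _, _, _, hA2, ⟨e1⟩⟩ := hIND2 K A 12 6 (by norm_num) (by rw [hA]; norm_num)
    (by norm_num) (gcdAux (by decide)) (by norm_num)
  have : FiniteDimensional K A2 := FiniteDimensional.of_finrank_pos (by rw [hA2]; norm_num)
  obtain ⟨C, _, _, _, _, hC, ⟨e2⟩⟩ := hIND2 K A2 6 3 (by norm_num) (by rw [hA2])
    (by norm_num) (gcdAux (by decide)) (by norm_num)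
  have : FiniteDimensional K C := FiniteDimensional.of_finrank_pos (by rw [hC]; norm_num)
  obtain ⟨B, _, _, _, _, hB, ⟨e3⟩⟩ := hIND3 K A 12 4 (by norm_num) (by rw [hA]; norm_num)
    (by norm_num) (gcdAux (by decide)) (by norm_num)
  have : FiniteDimensional K B := FiniteDimensional.of_finrank_pos (by rw [hB]; norm_num)
  change (A ⊗[K] A) ≃ₐ[K] Matrix (Fin 24) (Fin 24) A2 at e1
  change (A2 ⊗[K] A2) ≃ₐ[K] Matrix (Fin 12) (Fin 12) C at e2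
  change ((A ⊗[K] A) ⊗[K] A) ≃ₐ[K] Matrix (Fin 432) (Fin 432) B at e3
  -- chain 1
  obtain ⟨f1⟩ := hTM2 K A2 (Matrix (Fin 24) (Fin 24) A2) 24
  obtain ⟨f2⟩ := hTM1 K A2 A2 24
  obtain ⟨f3⟩ := hMMM K (A2 ⊗[K] A2) 24 24
  obtain ⟨f4⟩ := hMMM K C 576 12
  obtain ⟨f5⟩ := hMMM K C 432 16
  change Matrix (Fin 24) (Fin 24) (Matrix (Fin 24) (Fin 24) (A2 ⊗[K] A2)) ≃ₐ[K]
    Matrix (Fin 576) (Fin 576) (A2 ⊗[K] A2) at f3
  change Matrix (Fin 576) (Fin 576) (Matrix (Fin 12) (Fin 12) C) ≃ₐ[K]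
    Matrix (Fin 6912) (Fin 6912) C at f4
  change Matrix (Fin 432) (Fin 432) (Matrix (Fin 16) (Fin 16) C) ≃ₐ[K]
    Matrix (Fin 6912) (Fin 6912) C at f5
  have g1 : ((A ⊗[K] A) ⊗[K] (A ⊗[K] A)) ≃ₐ[K]
      Matrix (Fin 432) (Fin 432) (Matrix (Fin 16) (Fin 16) C) :=
    (Algebra.TensorProduct.congr e1 e1).trans <| f1.trans <| f2.mapMatrix.trans <|
      f3.trans <| e2.mapMatrix.trans <| f4.trans f5.symm
  -- chain 2
  obtain ⟨f6⟩ := hTM2 K B A 432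
  have g2 : ((A ⊗[K] A) ⊗[K] (A ⊗[K] A)) ≃ₐ[K]
      Matrix (Fin 432) (Fin 432) (B ⊗[K] A) :=
    (Algebra.TensorProduct.assoc K K K (A ⊗[K] A) A A).symm.trans <|
      (Algebra.TensorProduct.congr e3 AlgEquiv.refl).trans f6
  obtain ⟨_, _⟩ := hTCS K B A
  obtain ⟨_, _⟩ := hMCS K C 16 (by norm_num)
  obtain ⟨g3⟩ := hCAN K (B ⊗[K] A) (Matrix (Fin 16) (Fin 16) C) 432 (by norm_num)
    ⟨g2.symm.trans g1⟩
  -- the opposite algebra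
  obtain ⟨_, _, hBo, ⟨f7⟩⟩ := hOPP K B
  rw [hB] at f7
  change (Bᵐᵒᵖ ⊗[K] B) ≃ₐ[K] Matrix (Fin 16) (Fin 16) K at f7
  have : FiniteDimensional K Bᵐᵒᵖ := FiniteDimensional.of_finrank_pos (by rw [hBo, hB]; norm_num)
  obtain ⟨f8⟩ := hTM2 K K A 16
  obtain ⟨f9⟩ := hTM1 K Bᵐᵒᵖ C 16
  have g4 : (Bᵐᵒᵖ ⊗[K] (B ⊗[K] A)) ≃ₐ[K] Matrix (Fin 16) (Fin 16) A :=
    (Algebra.TensorProduct.assoc K K K Bᵐᵒᵖ B A).symm.trans <|
      (Algebra.TensorProduct.congr f7 AlgEquiv.refl).trans <| f8.trans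
        (Algebra.TensorProduct.lid K A).mapMatrix
  have g5 : (Bᵐᵒᵖ ⊗[K] (B ⊗[K] A)) ≃ₐ[K] Matrix (Fin 16) (Fin 16) (Bᵐᵒᵖ ⊗[K] C) :=
    (Algebra.TensorProduct.congr AlgEquiv.refl g3).trans f9
  obtain ⟨_, _⟩ := hTCS K Bᵐᵒᵖ C
  obtain ⟨g6⟩ := hCAN K A (Bᵐᵒᵖ ⊗[K] C) 16 (by norm_num) ⟨g4.symm.trans g5⟩
  exact ⟨Bᵐᵒᵖ, C, inferInstance, inferInstance, inferInstance, inferInstance, inferInstance,
    inferInstance, inferInstance, inferInstance, by rw [hBo, hB]; norm_num, by rw [hC]; norm_num,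
    ⟨g6⟩⟩


/-- degree twelve, characteristic three added -/
theorem m12t_of (hM12 : ST_M12.{u}) (hC4 : ST_C4t.{u}) (hC3a : ST_C3a.{u}) (hB4 : ST_B4.{u})
    (hB3a : ST_B3a.{u}) (hREL : ST_REL.{u}) (hNZ : ST_NZ.{u}) (hSC4 : ST_SC4.{u})
    (hSC3a : ST_SC3a.{u}) (hT5 : ST_T5.{u}) (hT6 : ST_T6.{u}) (hCL4 : ST_CL4.{u})
    (hCL3a : ST_CL3a.{u}) (hDESC : ST_DESC.{u}) (hTCS : ST_TCS.{u}) (hPDA : ST_PDAt.{u})
    (hFIN : ST_FINK.{u}) : ST_M12t.{u} := by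
  intro F K A _ _ _ _ _ _ _ h2F hA
  by_cases h3F : (3 : F) ≠ 0
  · exact hM12 F K A h2F h3F hA
  rw [not_not] at h3F
  have h2 : (2 : K) ≠ 0 := by
    intro h; apply h2F; apply (algebraMap F K).injective; rw [map_ofNat, map_zero]; exact h
  have h3 : (3 : K) = 0 := by
    have := congrArg (algebraMap F K) h3F
    rwa [map_ofNat, map_zero] at this
  by_cases hfin : Finite K
  · obtain ⟨L, B, iB1, iB2, hB0, hB1, hB2, hB3, hB4⟩ := hFIN F K A hfin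
    exact ⟨L, B, iB1, iB2, hB0, hB1, hB2, by rw [hB3, hA], hB4⟩
  rw [not_finite_iff_infinite] at hfin
  have hk : ∃ k : K, k ≠ 0 ∧ k ≠ 1 ∧ k ≠ -1 := by
    classical
    obtain ⟨k, hk⟩ := Infinite.exists_notMem_finset ({0, 1, -1} : Finset K)
    simp only [Finset.mem_insert, Finset.mem_singleton, not_or] at hk
    exact ⟨k, hk⟩
  obtain ⟨A₄, A₃, _, _, _, _, _, _, _, _, h16, h9, ⟨eA⟩⟩ := hPDA K A hA
  have : FiniteDimensional K A₄ := FiniteDimensional.of_finrank_pos (by omega)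
  have : FiniteDimensional K A₃ := FiniteDimensional.of_finrank_pos (by omega)
  obtain ⟨α₀, β₀, z₀, w₀, a₀, b₀, p₀, r₀, v₀, h40⟩ := hC4 K A₄ h16 h2 hk
  obtain ⟨hN1, hN2⟩ := hNZ K A₄ α₀ β₀ z₀ w₀ a₀ b₀ p₀ r₀ v₀ h2 h40
  obtain ⟨y, u₀, t, c₀, h30⟩ := hC3a K A₃ h9 h3
  have hl : c₀ / (p₀ ^ 2 - b₀) ≠ 0 := div_ne_zero h30.c0 hN1
  set l : K := c₀ / (p₀ ^ 2 - b₀) with hldef
  have h4 := hSC4 K A₄ α₀ β₀ z₀ w₀ a₀ b₀ p₀ r₀ v₀ l 1 hl one_ne_zero h40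
  have h3' := hSC3a K A₃ y u₀ t c₀ l hl h30
  have hc0 : c₀ = l * (p₀ ^ 2 - b₀) := by rw [hldef]; field_simp
  have hc : c₀ * l ^ 3 = (l ^ 2 * p₀) ^ 2 - l ^ 4 * b₀ := by rw [hc0]; ring
  rw [hc] at h3'
  clear_value l
  revert h4 h3'
  generalize (1 : K) ^ 2 • α₀ = α
  generalize l ^ 2 • β₀ = β
  generalize l • z₀ = z
  generalize (1 : K) • w₀ = w
  generalize l • u₀ = u
  generalize (1 : K) ^ 4 * a₀ = a
  generalize l ^ 4 * b₀ = b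
  generalize l ^ 2 * p₀ = p
  generalize (1 : K) ^ 2 * r₀ = r
  generalize ![v₀ 0, v₀ 1 / (1 : K) ^ 2, v₀ 2 / l ^ 2, v₀ 3 / (l ^ 2 * (1 : K) ^ 2)] = v
  intro h4 h3'
  have hrel := hREL K A₄ α β z w a b p r v h2 h4
  obtain ⟨hM1, hM2⟩ := hNZ K A₄ α β z w a b p r v h2 h4
  have htr := hT6 F K _ t 5 (hT5 F K a b p r v h2 h4.a0 h4.b0 hM1 hM2 hrel)
  set L : IntermediateField F K :=
    IntermediateField.adjoin F ((({a, b, p, r} : Set K) ∪ Set.range v) ∪ {t}) with hL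
  have hsub : ((({a, b, p, r} : Set K) ∪ Set.range v) ∪ {t}) ⊆ (L : Set K) :=
    IntermediateField.subset_adjoin F _
  have haL : a ∈ L := hsub (Or.inl (Or.inl (by simp)))
  have hbL : b ∈ L := hsub (Or.inl (Or.inl (by simp)))
  have hpL : p ∈ L := hsub (Or.inl (Or.inl (by simp)))
  have hrL : r ∈ L := hsub (Or.inl (Or.inl (by simp)))
  have hvL : ∀ k, v k ∈ L := fun k => hsub (Or.inl (Or.inr ⟨k, rfl⟩))
  have htL : t ∈ L := hsub (Or.inr rfl)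
  have hcL : p ^ 2 - b ∈ L := L.sub_mem (pow_mem hpL 2) hbL
  clear_value L
  obtain ⟨B, iB1, iB2, hB1, hB2, hB3, ⟨hB4⟩⟩ := descTensor hDESC hTCS L _ _ (e4 α β z w)
    (e3c y u) (hB4 K A₄ α β z w a b p r v h2 h4) (hB3a K A₃ y u t _ h3 h3')
    (by rw [h16]; simp) (by rw [h9]; simp)
    (Submodule.subset_span ⟨(0, 0, 0, 0), by simp [e4]⟩)
    (Submodule.subset_span ⟨(0, 0), by simp [e3c]⟩)
    (hCL4 F K A₄ L α β z w a b p r v h4 haL hbL hpL hrL hvL)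
    (hCL3a F K A₃ L y u t _ h3' htL hcL)
  exact ⟨L, B, iB1, iB2, by simpa using htr, hB1, hB2, by rw [hB3, h16, h9],
    ⟨hB4.trans eA.symm⟩⟩

end Pool.Agent.Helper75.PX
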