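import Pool.Agent.Helper75.PX.Hand2
import Pool.Agent.Helper75.PX.M12t
import Pool.Agent.Helper27.PX.SEPC
import Pool.Agent.Helper40.PX.SPS
import Pool.Agent.Helper80.PX.TRR
import Pool.Agent.Helper33.PX.GOLt
import Pool.Agent.Helper24.PX.IND2t
import Pool.Agent.Helper12.PX.IND3t
import Pool.Agent.Helper38.PX.M4t
import Pool.Agent.Helper60.PX.C4t
import Pool.Agent.Helper99.PX.TAU
import Pool.Agent.Helper4.PX.TZ3
import Pool.Agent.Helper2.PX.AX3
import Pool.Agent.Helper40.PX.C3a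
import Pool.Agent.Helper22.PX.B3a
import Pool.Agent.Helper27.PX.SC3a
import Pool.Agent.Helper80.PX.CL3a
import Pool.Agent.Helper79.PX.FINK

set_option autoImplicit false

universe u

namespace Pool.Agent.Helper75.PX

theorem hand_SPS : ST_SPS.{u} := st_SPS st_SIMP st_WA st_SEPC

theorem hand_TRR : ST_TRR.{u} := st_TRR hand_SPS

/-- primary decomposition in degree twelve, every characteristic -/
theorem hand_PDAt : ST_PDAt.{u} := by
  have hTCS : ST_TCS.{u} := Pool.Agent.Helper2.PX.st_TCS st_SIMP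
  have hWA : ST_WA.{u} := st_WA
  have hTRR : ST_TRR.{u} := hand_TRR
  have hKRO : ST_KRO.{u} := Pool.Agent.Helper2.PX.st_KRO
  have hINDG : ST_INDG.{u} := st_INDG hWA st_DIM st_MCR st_MMM st_MCS
  have hIND2 : ST_IND2t.{u} := st_IND2t hTRR hKRO st_GOLt st_RK2 hINDG hTCS
  have hIND3 : ST_IND3t.{u} := st_IND3t hTRR hKRO st_GOLt st_RK3 hINDG hTCS
  exact pdat_of hIND2 hIND3 st_TM1 (st_TM2 st_TM1) st_MMM st_MCS
    (st_CAN hWA st_MMM st_UNI) (Pool.Agent.Helper51.PX.st_OPP hTCS) hTCS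

theorem hand_C3a : ST_C3a.{u} := by
  have hMPD : ST_MPD.{u} := st_MPD st_SIMP
  have hMDV : ST_MDV.{u} := st_MDV
  have hTAU : ST_TAU.{u} := st_TAU hand_TRR st_SIMP
  exact st_C3a st_WA (st_TZ3 hTAU hMPD hMDV st_MIN) (st_AX3 (st_K3 hMDV hMPD))

theorem hand_C4t : ST_C4t.{u} := by
  have hMPD : ST_MPD.{u} := st_MPD st_SIMP
  have hMDV : ST_MDV.{u} := st_MDV
  have hTRM : ST_TRM.{u} := st_TRM hMDV
  have hA4 : ST_A4.{u} := st_A4 hMPD hMDV st_TRZ hTRM st_MIN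
  have hG4 : ST_G4.{u} := Pool.Agent.Helper60.PX.st_G4 hMPD hMDV
  have hE4 : ST_E4.{u} := st_E4 hA4 st_G1 hG4 st_W4 st_CE
  exact st_C4t st_WA hE4 (st_Q4 st_WA hMPD hMDV) st_M4t

/-- degree twelve over every field of characteristic not two -/
theorem st_M12t : ST_M12t.{u} := by
  have hTCS : ST_TCS.{u} := Pool.Agent.Helper2.PX.st_TCS st_SIMP
  exact m12t_of st_M12 hand_C4t hand_C3a (st_B4 st_I4) st_B3a
    (Pool.Agent.Helper9.PX.st_REL st_I4) Pool.Agent.Helper98.PX.st_NZ st_SC4 st_SC3a st_T5 st_T6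
    st_CL4 st_CL3a st_DESC hTCS hand_PDAt st_FINK

end Pool.Agent.Helper75.PX
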