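import Pool.Agent.Helper75.PX.Stmts6

set_option autoImplicit false

universe u

open Module TensorProduct

namespace Pool.Agent.Helper75.PXI

open Pool.Agent.Helper75.PX

theorem smulOneZero {K A : Type u} [Field K] [Ring A] [Algebra K A] [Nontrivial A] (t : K)
    (h : t • (1 : A) = 0) : t = 0 := by
  rcases smul_eq_zero.1 h with h | h
  · exact h
  · exact absurd h one_ne_zero

theorem cancelAux {K A : Type u} [Field K] [Ring A] [Algebra K A] (h2 : (2 : K) = 0)
    (β z : A) (b p : K) (hbb : β * β = β + algebraMap K A b) (hzz : z * z = p • β)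
    (hb : b ≠ 0) (hp : p ≠ 0) (x : A) (hx : x * z = 0) : x = 0 := by
  have h2A : ∀ y : A, y + y = 0 := fun y => by rw [← two_smul K y, h2, zero_smul]
  have h1 : p • (x * β) = 0 := by
    rw [← mul_smul_comm, ← hzz, ← mul_assoc, hx, zero_mul]
  have h3 : x * β = 0 := by
    rcases smul_eq_zero.1 h1 with h | h
    · exact absurd h hp
    · exact h
  have h4 : x * (β * β + β) = 0 := by rw [mul_add, ← mul_assoc, h3, zero_mul, add_zero]
  have h5 : β * β + β = algebraMap K A b := by
    rw [hbb]
    calc β + algebraMap K A b + β = algebraMap K A b + (β + β) := by abel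
      _ = algebraMap K A b := by rw [h2A, add_zero]
  rw [h5, ← Algebra.commutes, ← Algebra.smul_def] at h4
  rcases smul_eq_zero.1 h4 with h | h
  · exact absurd h hb
  · exact h

theorem st_I4b : ST_I4b.{u} := by
  intro K A _ _ _ _ α β z w a b p r v h2 D t ht
  have cz : ∀ x : A, x * z = 0 → x = 0 := fun x hx =>
    cancelAux h2 β z b p D.hbb D.hzz D.b0 D.p0 x hx
  have cw : ∀ x : A, x * w = 0 → x = 0 := fun x hx =>
    cancelAux h2 α w a r D.haa D.hww D.a0 D.r0 x hx
  have key : ∀ s q : K, s • (1 : A) + q • β = 0 → s = 0 ∧ q = 0 := by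
    intro s q h
    have h1 : w * (s • (1 : A) + q • β) = (s • (1 : A) + q • β) * w + (q • (1 : A)) * w := by
      simp only [mul_add, add_mul, mul_smul_comm, smul_mul_assoc, mul_one, one_mul, D.hwb,
        smul_add]
      abel
    rw [h, mul_zero, zero_mul, zero_add] at h1
    have h3 := smulOneZero q (cw _ h1.symm)
    refine ⟨?_, h3⟩
    rw [h3, zero_smul, add_zero] at h
    exact smulOneZero s h
  simp only [uE] at ht
  have e1 : z * (t 0 • (1 : A) + t 1 • α + t 2 • β + t 3 • (α * β)) =
      (t 0 • (1 : A) + t 1 • α + t 2 • β + t 3 • (α * β)) * z +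
        (t 1 • (1 : A) + t 3 • β) * z := by
    have h3 : z * (α * β) = (α * β) * z + β * z := by
      rw [← mul_assoc, D.hza, mul_assoc, D.hzb, ← mul_assoc, add_mul, add_mul, one_mul]
    simp only [mul_add, add_mul, mul_smul_comm, smul_mul_assoc, mul_one, one_mul, D.hza,
      D.hzb, h3, smul_add]
    abel
  rw [ht, mul_zero, zero_mul, zero_add] at e1
  obtain ⟨k1, k3⟩ := key _ _ (cz _ e1.symm)
  rw [k1, k3, zero_smul, zero_smul, add_zero, add_zero] at ht
  obtain ⟨k0, k2⟩ := key _ _ ht
  funext i
  fin_cases i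
  · exact k0
  · exact k1
  · exact k2
  · exact k3

end Pool.Agent.Helper75.PXI
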