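import Pool.Agent.Helper75.PX.Hand4a
import Pool.Agent.Helper28.PX.A4b
import Pool.Agent.Helper75.PX.I4b
import Pool.Agent.Helper67.PX.SC4b
import Pool.Agent.Helper23.PX.TZ

set_option autoImplicit false

universe u

namespace Pool.Agent.Helper75.PX

theorem hand_CORE2 : ST_CORE2.{u} :=
  core2_rows (st_A4b hand_EE (st_MPD st_SIMP) st_MDV st_MIN) Pool.Agent.Helper75.PXI.st_I4b
    st_SC4b st_TZ

/-- degree twelve over every field -/
theorem st_M12u : ST_M12u.{u} := m12u_of st_M12t hand_CORE2

/-- degree twelve with a cube root of unity -/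
theorem st_M12z : ST_M12z.{u} := m12z_of st_MAIN2 hand_CORE2

end Pool.Agent.Helper75.PX
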