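import Pool.Agent.Helper75.PX.Stmts6
import Pool.Agent.Helper75.PX.M12t

set_option autoImplicit false

universe u

open Module TensorProduct

namespace Pool.Agent.Helper75.PX

/-- characteristic two, both bounds -/
def ST_CORE2 : Prop := ∀ (F K A : Type u) [Field F] [Field K] [Algebra F K]
  [Ring A] [Algebra K A] [Algebra.IsCentral K A] [IsSimpleRing A],
  (2 : F) = 0 → finrank K A = 144 →
  ∃ (L : IntermediateField F K) (B : Type u) (_ : Ring B) (_ : Algebra L B),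
    Algebra.trdeg F L ≤ 6 ∧ ((∃ ζ : K, ζ ^ 2 + ζ + 1 = 0) → Algebra.trdeg F L ≤ 5) ∧
    Algebra.IsCentral L B ∧ IsSimpleRing B ∧ finrank L B = 144 ∧ Nonempty ((K ⊗[L] B) ≃ₐ[K] A)

/-- degree twelve over every field -/
def ST_M12u : Prop := ∀ (F K A : Type u) [Field F] [Field K] [Algebra F K]
  [Ring A] [Algebra K A] [Algebra.IsCentral K A] [IsSimpleRing A], finrank K A = 144 →
  ∃ (L : IntermediateField F K) (B : Type u) (_ : Ring B) (_ : Algebra L B),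
    Algebra.trdeg F L ≤ 6 ∧ Algebra.IsCentral L B ∧ IsSimpleRing B ∧ finrank L B = 144 ∧
    Nonempty ((K ⊗[L] B) ≃ₐ[K] A)

/-- degree twelve with a cube root of unity, characteristic not three -/
def ST_M12z : Prop := ∀ (F K A : Type u) [Field F] [Field K] [Algebra F K]
  [Ring A] [Algebra K A] [Algebra.IsCentral K A] [IsSimpleRing A],
  (3 : F) ≠ 0 → (∃ ζ : F, ζ ^ 2 + ζ + 1 = 0) → finrank K A = 144 →
  ∃ (L : IntermediateField F K) (B : Type u) (_ : Ring B) (_ : Algebra L B),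
    Algebra.trdeg F L ≤ 5 ∧ Algebra.IsCentral L B ∧ IsSimpleRing B ∧ finrank L B = 144 ∧
    Nonempty ((K ⊗[L] B) ≃ₐ[K] A)

theorem core2_of (hC4 : ST_C4b.{u}) (hC3 : ST_C3.{u}) (hC3d : ST_C3d.{u}) (hB4 : ST_B4b.{u})
    (hB3 : ST_B3.{u}) (hB3c : ST_B3c.{u}) (hREL : ST_RELb.{u}) (hSC4 : ST_SC4b.{u})
    (hSC3 : ST_SC3.{u}) (hSC3c : ST_SC3c.{u}) (hT5 : ST_T5b.{u}) (hT6 : ST_T6.{u})
    (hTZ : ST_TZ.{u}) (hCL4 : ST_CL4b.{u}) (hCL3 : ST_CL3.{u}) (hCL3c : ST_CL3c.{u})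
    (hDESC : ST_DESC.{u}) (hTCS : ST_TCS.{u}) (hPDA : ST_PDAt.{u})
    (hFIN : ST_FINK.{u}) : ST_CORE2.{u} := by
  intro F K A _ _ _ _ _ _ _ h2F hA
  have h2 : (2 : K) = 0 := by
    have := congrArg (algebraMap F K) h2F
    rwa [map_ofNat, map_zero] at this
  have h3 : (3 : K) ≠ 0 := by
    intro h
    have : (1 : K) = 3 - 2 := by norm_num
    rw [h, h2, sub_zero] at this
    exact one_ne_zero this
  by_cases hfin : Finite K
  · obtain ⟨L, B, iB1, iB2, hB0, hB1, hB2, hB3, hB4⟩ := hFIN F K A hfin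
    have hLf : Finite L := Finite.of_injective (algebraMap L K) (algebraMap L K).injective
    have hLF : Module.Finite F L := Module.Finite.of_finite
    have hal : Algebra.IsAlgebraic F L := Algebra.IsAlgebraic.of_finite F L
    exact ⟨L, B, iB1, iB2, hB0, fun _ => by rw [trdeg_eq_zero]; exact zero_le, hB1, hB2,
      by rw [hB3, hA], hB4⟩
  rw [not_finite_iff_infinite] at hfin
  have hk : ∃ k : K, k ≠ 0 ∧ k ≠ 1 := by
    classical
    obtain ⟨k, hk⟩ := Infinite.exists_notMem_finset ({0, 1} : Finset K)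
    simp only [Finset.mem_insert, Finset.mem_singleton, not_or] at hk
    exact ⟨k, hk⟩
  have hs : ∃ s : K, s ≠ 0 ∧ s + 1 ≠ 0 := by
    obtain ⟨k, hk0, hk1⟩ := hk
    refine ⟨k, hk0, fun h => hk1 ?_⟩
    have : k = k + 1 - 2 + 1 := by ring
    rw [h, h2] at this
    simpa using this
  obtain ⟨A₄, A₃, _, _, _, _, _, _, _, _, h16, h9, ⟨eA⟩⟩ := hPDA K A hA
  have : FiniteDimensional K A₄ := FiniteDimensional.of_finrank_pos (by omega)
  have : FiniteDimensional K A₃ := FiniteDimensional.of_finrank_pos (by omega)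
  obtain ⟨α, β, z₀, w₀, a, b, p₀, r₀, v, h40⟩ := hC4 K A₄ h16 h2 hk
  have hp0 := h40.p0
  have hr0 := h40.r0
  by_cases hz : ∃ ζ : K, ζ ^ 2 + ζ + 1 = 0
  · obtain ⟨ζ, hζ⟩ := hz
    obtain ⟨i₀, j₀, c₀, d₀, h30⟩ := hC3 K A₃ ζ h9 h3 hζ
    have hl : c₀ / p₀ ≠ 0 := div_ne_zero h30.c0 hp0
    have hm : d₀ / r₀ ≠ 0 := div_ne_zero h30.d0 hr0
    set l : K := c₀ / p₀ with hldef
    set m : K := d₀ / r₀ with hmdef
    have h4 := hSC4 K A₄ α β z₀ w₀ a b p₀ r₀ v (l ^ 2) (m ^ 2) (pow_ne_zero 2 hl)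
      (pow_ne_zero 2 hm) h40
    have h3' := hSC3 K A₃ ζ i₀ j₀ c₀ d₀ l m hl hm h30
    have hc0 : c₀ = l * p₀ := by rw [hldef]; field_simp
    have hd0 : d₀ = m * r₀ := by rw [hmdef]; field_simp
    have hc : c₀ * l ^ 3 = p₀ * (l ^ 2) ^ 2 := by rw [hc0]; ring
    have hd : d₀ * m ^ 3 = r₀ * (m ^ 2) ^ 2 := by rw [hd0]; ring
    rw [hc, hd] at h3'
    clear_value l m
    revert h4 h3'
    generalize l ^ 2 • z₀ = z
    generalize m ^ 2 • w₀ = w
    generalize l • i₀ = i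
    generalize m • j₀ = j
    generalize p₀ * (l ^ 2) ^ 2 = p
    generalize r₀ * (m ^ 2) ^ 2 = r
    intro h4 h3'
    have hrel := hREL K A₄ α β z w a b p r v h2 h4
    have htr := hTZ F K _ ζ 5 hζ (hT5 F K a b p r v h2 h4.a0 h4.b0 hrel)
    set L : IntermediateField F K :=
      IntermediateField.adjoin F ((({a, b, p, r} : Set K) ∪ Set.range v) ∪ {ζ}) with hL
    have hsub : ((({a, b, p, r} : Set K) ∪ Set.range v) ∪ {ζ}) ⊆ (L : Set K) :=
      IntermediateField.subset_adjoin F _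
    have haL : a ∈ L := hsub (Or.inl (Or.inl (by simp)))
    have hbL : b ∈ L := hsub (Or.inl (Or.inl (by simp)))
    have hpL : p ∈ L := hsub (Or.inl (Or.inl (by simp)))
    have hrL : r ∈ L := hsub (Or.inl (Or.inl (by simp)))
    have hvL : ∀ k, v k ∈ L := fun k => hsub (Or.inl (Or.inr ⟨k, rfl⟩))
    have hζL : ζ ∈ L := hsub (Or.inr rfl)
    clear_value L
    have htr5 : Algebra.trdeg F L ≤ 5 := by simpa using htr
    have h56 : (5 : Cardinal.{u}) ≤ 6 := by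
      have : ((5 : ℕ) : Cardinal.{u}) ≤ ((6 : ℕ) : Cardinal.{u}) := Nat.cast_le.2 (by norm_num)
      simpa using this
    obtain ⟨B, iB1, iB2, hB1, hB2, hB3, ⟨hB4⟩⟩ := descTensor hDESC hTCS L _ _ (e4 α β z w)
      (e3 i j) (hB4 K A₄ α β z w a b p r v h2 h4) (hB3 K A₃ ζ i j _ _ h3 hζ h3')
      (by rw [h16]; simp) (by rw [h9]; simp)
      (Submodule.subset_span ⟨(0, 0, 0, 0), by simp [e4]⟩)
      (Submodule.subset_span ⟨(0, 0), by simp [e3]⟩)
      (hCL4 F K A₄ L α β z w a b p r v h2 h4 haL hbL hpL hrL hvL)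
      (hCL3 F K A₃ L ζ i j _ _ h3' hζL hζ hpL hrL)
    exact ⟨L, B, iB1, iB2, htr5.trans h56, fun _ => htr5, hB1, hB2, by rw [hB3, h16, h9],
      ⟨hB4.trans eA.symm⟩⟩
  · have hz' : ∀ ζ : K, ζ ^ 2 + ζ + 1 ≠ 0 := fun ζ h => hz ⟨ζ, h⟩
    obtain ⟨y, u₀, t, c₀, h30⟩ := hC3d K A₃ h9 h3 hs hz'
    have hl : c₀ / p₀ ≠ 0 := div_ne_zero h30.c0 hp0
    set l : K := c₀ / p₀ with hldef
    have h4 := hSC4 K A₄ α β z₀ w₀ a b p₀ r₀ v (l ^ 2) 1 (pow_ne_zero 2 hl) one_ne_zero h40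
    have h3' := hSC3c K A₃ y u₀ t c₀ l hl h30
    have hc0 : c₀ = l * p₀ := by rw [hldef]; field_simp
    have hc : c₀ * l ^ 3 = p₀ * (l ^ 2) ^ 2 := by rw [hc0]; ring
    rw [hc] at h3'
    clear_value l
    revert h4 h3'
    generalize l ^ 2 • z₀ = z
    generalize (1 : K) • w₀ = w
    generalize l • u₀ = u
    generalize p₀ * (l ^ 2) ^ 2 = p
    generalize r₀ * (1 : K) ^ 2 = r
    intro h4 h3'
    have hrel := hREL K A₄ α β z w a b p r v h2 h4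
    have htr := hT6 F K _ t 5 (hT5 F K a b p r v h2 h4.a0 h4.b0 hrel)
    set L : IntermediateField F K :=
      IntermediateField.adjoin F ((({a, b, p, r} : Set K) ∪ Set.range v) ∪ {t}) with hL
    have hsub : ((({a, b, p, r} : Set K) ∪ Set.range v) ∪ {t}) ⊆ (L : Set K) :=
      IntermediateField.subset_adjoin F _
    have haL : a ∈ L := hsub (Or.inl (Or.inl (by simp)))
    have hbL : b ∈ L := hsub (Or.inl (Or.inl (by simp)))
    have hpL : p ∈ L := hsub (Or.inl (Or.inl (by simp)))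
    have hrL : r ∈ L := hsub (Or.inl (Or.inl (by simp)))
    have hvL : ∀ k, v k ∈ L := fun k => hsub (Or.inl (Or.inr ⟨k, rfl⟩))
    have htL : t ∈ L := hsub (Or.inr rfl)
    clear_value L
    obtain ⟨B, iB1, iB2, hB1, hB2, hB3, ⟨hB4⟩⟩ := descTensor hDESC hTCS L _ _ (e4 α β z w)
      (e3c y u) (hB4 K A₄ α β z w a b p r v h2 h4) (hB3c K A₃ y u t _ h3 hz' h3')
      (by rw [h16]; simp) (by rw [h9]; simp)
      (Submodule.subset_span ⟨(0, 0, 0, 0), by simp [e4]⟩)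
      (Submodule.subset_span ⟨(0, 0), by simp [e3c]⟩)
      (hCL4 F K A₄ L α β z w a b p r v h2 h4 haL hbL hpL hrL hvL)
      (hCL3c F K A₃ L y u t _ h3' htL hpL)
    exact ⟨L, B, iB1, iB2, by simpa using htr, fun h => absurd h hz, hB1, hB2,
      by rw [hB3, h16, h9], ⟨hB4.trans eA.symm⟩⟩

theorem m12u_of (h1 : ST_M12t.{u}) (h2 : ST_CORE2.{u}) : ST_M12u.{u} := by
  intro F K A _ _ _ _ _ _ _ hA
  by_cases h2F : (2 : F) ≠ 0
  · exact h1 F K A h2F hA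
  rw [not_not] at h2F
  obtain ⟨L, B, iB1, iB2, hB0, _, hB⟩ := h2 F K A h2F hA
  exact ⟨L, B, iB1, iB2, hB0, hB⟩

theorem m12z_of (h1 : ST_MAIN2.{u}) (h2 : ST_CORE2.{u}) : ST_M12z.{u} := by
  intro F K A _ _ _ _ _ _ _ h3F hζ hA
  by_cases h2F : (2 : F) ≠ 0
  · exact h1 F K A h2F h3F hζ hA
  rw [not_not] at h2F
  obtain ⟨L, B, iB1, iB2, _, hB0, hB⟩ := h2 F K A h2F hA
  obtain ⟨ζ, hζ⟩ := hζ
  refine ⟨L, B, iB1, iB2, hB0 ⟨algebraMap F K ζ, ?_⟩, hB⟩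
  rw [← map_pow, ← map_add, ← map_one (algebraMap F K), ← map_add, hζ, map_zero]

end Pool.Agent.Helper75.PX
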