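import Pool.Agent.Helper75.PX.Stmts5

set_option autoImplicit false

universe u

open Module TensorProduct

namespace Pool.Agent.Helper75.PX

/-- generators in degree four, characteristic two -/
structure D4b {K A : Type*} [Field K] [Ring A] [Algebra K A] (α β z w : A) (a b p r : K)
    (v : Fin 4 → K) : Prop where
  haa : α * α = α + algebraMap K A a
  hbb : β * β = β + algebraMap K A b
  hab : α * β = β * α
  hza : z * α = (α + 1) * z
  hzb : z * β = β * z
  hwa : w * α = α * w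
  hwb : w * β = (β + 1) * w
  hzz : z * z = p • β
  hww : w * w = r • α
  hzw : z * w = uE α β v * (w * z)
  a0 : a ≠ 0
  b0 : b ≠ 0
  p0 : p ≠ 0
  r0 : r ≠ 0

/-- the relations in characteristic two (norms of `v`) -/
def Relb {K : Type*} [Field K] (a b : K) (v : Fin 4 → K) : Prop :=
  v 0 ^ 2 + v 0 * v 1 + a * v 1 ^ 2 + b * (v 2 ^ 2 + v 2 * v 3 + a * v 3 ^ 2) = 1 ∧
  (v 2 ^ 2 + v 2 * v 3 + a * v 3 ^ 2) + (v 0 * v 3 + v 1 * v 2) = b⁻¹ ∧
  v 0 ^ 2 + v 0 * v 2 + b * v 2 ^ 2 + a * (v 1 ^ 2 + v 1 * v 3 + b * v 3 ^ 2) = 1 + a⁻¹ ∧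
  (v 1 ^ 2 + v 1 * v 3 + b * v 3 ^ 2) + (v 0 * v 3 + v 1 * v 2) = a⁻¹

/-- splitting with rational characteristic polynomials -/
def ST_CPR : Prop := ∀ (K A : Type u) [Field K] [Ring A] [Algebra K A] [Algebra.IsCentral K A]
  [IsSimpleRing A] (n : ℕ), 0 < n → finrank K A = n ^ 2 →
  ∃ Ψ : A →ₐ[K] Matrix (Fin n) (Fin n) (AlgebraicClosure K),
    Submodule.span (AlgebraicClosure K) (Set.range Ψ) = ⊤ ∧
    ∀ x : A, ∃ P : Polynomial K, (Ψ x).charpoly = P.map (algebraMap K (AlgebraicClosure K))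

/-- the second coefficient of the characteristic polynomial of a four by four matrix -/
def ST_E2M : Prop := ∀ (R : Type u) [CommRing R] (M : Matrix (Fin 4) (Fin 4) R),
  M.charpoly.coeff 2 = (M 0 0 * M 1 1 - M 0 1 * M 1 0) + (M 0 0 * M 2 2 - M 0 2 * M 2 0) +
    (M 0 0 * M 3 3 - M 0 3 * M 3 0) + (M 1 1 * M 2 2 - M 1 2 * M 2 1) +
    (M 1 1 * M 3 3 - M 1 3 * M 3 1) + (M 2 2 * M 3 3 - M 2 3 * M 3 2)

/-- reduced trace and second reduced coefficient in degree four, characteristic two -/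
def ST_EE : Prop := ∀ (K D : Type u) [Field K] [DivisionRing D] [Algebra K D]
  [Algebra.IsCentral K D], finrank K D = 16 → (2 : K) = 0 →
  ∃ (τ : D →ₗ[K] K) (e : D → K), (∃ x, τ x ≠ 0) ∧ (∀ x y, τ (x * y) = τ (y * x)) ∧
    (∀ x y, e (x + y) = e x + e y + τ x * τ y - τ (x * y)) ∧
    (∀ v : D, (minpoly K v).natDegree = 4 →
      (minpoly K v).coeff 3 = -τ v ∧ (minpoly K v).coeff 2 = e v) ∧
    (∀ (v : D) (k : K), v * v = algebraMap K D k → e v = 0)

/-- a separable quadratic element -/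
def ST_A4b : Prop := ∀ (K D : Type u) [Field K] [DivisionRing D] [Algebra K D]
  [Algebra.IsCentral K D], finrank K D = 16 → (2 : K) = 0 →
  ∃ (α : D) (a : K), α * α = α + algebraMap K D a ∧ ∀ k : K, α ≠ algebraMap K D k

/-- the second quadratic element -/
def ST_G4b : Prop := ∀ (K D : Type u) [Field K] [DivisionRing D] [Algebra K D]
  [Algebra.IsCentral K D], finrank K D = 16 → (2 : K) = 0 → ∀ (α : D) (a : K),
  α * α = α + algebraMap K D a → (∀ k : K, α ≠ algebraMap K D k) →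
  ∃ (z β : D) (b p : K), z ≠ 0 ∧ z * α = (α + 1) * z ∧ z * β = β * z ∧ α * β = β * α ∧
    β * β = β + algebraMap K D b ∧ (∀ k : K, β ≠ algebraMap K D k) ∧ z * z = p • β ∧ p ≠ 0

/-- the fourth generator, with a translation of `α` -/
def ST_W4b : Prop := ∀ (K D : Type u) [Field K] [DivisionRing D] [Algebra K D]
  [Algebra.IsCentral K D], finrank K D = 16 → (2 : K) = 0 → ∀ (α β z : D) (a b : K),
  α * α = α + algebraMap K D a → β * β = β + algebraMap K D b →
  (∀ k : K, α ≠ algebraMap K D k) → (∀ k : K, β ≠ algebraMap K D k) →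
  α * β = β * α → z ≠ 0 → z * α = (α + 1) * z → z * β = β * z →
  ∃ (w : D) (k r : K), w ≠ 0 ∧ w * α = α * w ∧ w * β = (β + 1) * w ∧ r ≠ 0 ∧
    w * w = r • (α + algebraMap K D k)

/-- the centralizer of `α` and `β` -/
def ST_CEb : Prop := ∀ (K D : Type u) [Field K] [DivisionRing D] [Algebra K D]
  [Algebra.IsCentral K D], finrank K D = 16 → (2 : K) = 0 → ∀ (α β z w : D) (a b : K),
  α * α = α + algebraMap K D a → β * β = β + algebraMap K D b → α * β = β * α →
  z ≠ 0 → w ≠ 0 → z * α = (α + 1) * z → z * β = β * z → w * α = α * w → w * β = (β + 1) * w →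
  ∀ x : D, x * α = α * x → x * β = β * x → ∃ v : Fin 4 → K, x = uE α β v

/-- all generators, division case, characteristic two -/
def ST_E4b : Prop := ∀ (K D : Type u) [Field K] [DivisionRing D] [Algebra K D]
  [Algebra.IsCentral K D], finrank K D = 16 → (2 : K) = 0 →
  ∃ (α β z w : D) (a b p r : K) (v : Fin 4 → K), D4b α β z w a b p r v

/-- two by two matrices over a quaternion algebra, characteristic two -/
def ST_M4b : Prop := ∀ (K Q : Type u) [Field K] [Ring Q] [Algebra K Q], (2 : K) = 0 →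
  (∃ k : K, k ≠ 0 ∧ k ≠ 1) → ∀ (i j : Q) (x y : K), D2c i j x y →
  ∃ (α β z w : Matrix (Fin 2) (Fin 2) Q) (a b p r : K) (v : Fin 4 → K), D4b α β z w a b p r v

/-- generators in degree four, characteristic two -/
def ST_C4b : Prop := ∀ (K A : Type u) [Field K] [Ring A] [Algebra K A] [Algebra.IsCentral K A]
  [IsSimpleRing A], finrank K A = 16 → (2 : K) = 0 → (∃ k : K, k ≠ 0 ∧ k ≠ 1) →
  ∃ (α β z w : A) (a b p r : K) (v : Fin 4 → K), D4b α β z w a b p r v

/-- `1, α, β, αβ` are independent, characteristic two -/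
def ST_I4b : Prop := ∀ (K A : Type u) [Field K] [Ring A] [Algebra K A] [Nontrivial A]
  (α β z w : A) (a b p r : K) (v : Fin 4 → K), (2 : K) = 0 → D4b α β z w a b p r v →
  ∀ t : Fin 4 → K, uE α β t = 0 → t = 0

/-- the sixteen monomials are independent, characteristic two -/
def ST_B4b : Prop := ∀ (K A : Type u) [Field K] [Ring A] [Algebra K A] [Nontrivial A]
  (α β z w : A) (a b p r : K) (v : Fin 4 → K), (2 : K) = 0 → D4b α β z w a b p r v →
  LinearIndependent K (e4 α β z w)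

/-- the relations, characteristic two -/
def ST_RELb : Prop := ∀ (K A : Type u) [Field K] [Ring A] [Algebra K A] [Nontrivial A]
  (α β z w : A) (a b p r : K) (v : Fin 4 → K), (2 : K) = 0 → D4b α β z w a b p r v →
  Relb a b v

/-- scaling in degree four, characteristic two -/
def ST_SC4b : Prop := ∀ (K A : Type u) [Field K] [Ring A] [Algebra K A]
  (α β z w : A) (a b p r : K) (v : Fin 4 → K) (l m : K), l ≠ 0 → m ≠ 0 →
  D4b α β z w a b p r v → D4b α β (l • z) (m • w) a b (p * l ^ 2) (r * m ^ 2) v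

/-- transcendence degree at most five, characteristic two -/
def ST_T5b : Prop := ∀ (F K : Type u) [Field F] [Field K] [Algebra F K] (a b p r : K)
  (v : Fin 4 → K), (2 : K) = 0 → a ≠ 0 → b ≠ 0 → Relb a b v →
  Algebra.trdeg F (IntermediateField.adjoin F (({a, b, p, r} : Set K) ∪ Set.range v)) ≤ 5

/-- products of the sixteen monomials, characteristic two -/
def ST_CL4b : Prop := ∀ (F K A : Type u) [Field F] [Field K] [Algebra F K] [Ring A] [Algebra K A]
  (L : IntermediateField F K) (α β z w : A) (a b p r : K) (v : Fin 4 → K), (2 : K) = 0 →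
  D4b α β z w a b p r v → a ∈ L → b ∈ L → p ∈ L → r ∈ L → (∀ k, v k ∈ L) →
  ∀ s t, e4 α β z w s * e4 α β z w t ∈ Submodule.span L (Set.range (e4 α β z w))

/-- adjoining a root of unity -/
def ST_TZ : Prop := ∀ (F K : Type u) [Field F] [Field K] [Algebra F K] (S : Set K) (ζ : K)
  (n : ℕ), ζ ^ 2 + ζ + 1 = 0 → Algebra.trdeg F (IntermediateField.adjoin F S) ≤ (n : Cardinal) →
  Algebra.trdeg F (IntermediateField.adjoin F (S ∪ {ζ})) ≤ (n : Cardinal)

end Pool.Agent.Helper75.PX
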