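import Pool.Agent.Helper75.PX.Hand3
import Pool.Agent.Helper75.PX.M12u
import Pool.Agent.Helper38.PX.CPR
import Pool.Agent.Helper88.PX.E2M
import Pool.Agent.Helper51.PX.EE
import Pool.Agent.Helper25.PX.G4b
import Pool.Agent.Helper52.PX.W4b
import Pool.Agent.Helper90.PX.CEb
import Pool.Agent.Helper89.PX.E4b
import Pool.Agent.Helper22.PX.M4b
import Pool.Agent.Helper13.PX.C4b
import Pool.Agent.Helper99.PX.B4b
import Pool.Agent.Helper4.PX.RELb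
import Pool.Agent.Helper21.PX.T5b
import Pool.Agent.Helper79.PX.CL4b
import Pool.Agent.Helper39.PX.Q2
import Pool.Agent.Helper58.PX.C3d

set_option autoImplicit false

universe u

namespace Pool.Agent.Helper75.PX

theorem hand_EE : ST_EE.{u} := st_EE (st_CPR hand_SPS) st_E2M

theorem hand_C3d : ST_C3d.{u} := by
  have hSIMP : ST_SIMP.{u} := st_SIMP
  have hMPD : ST_MPD.{u} := st_MPD hSIMP
  have hMDV : ST_MDV.{u} := st_MDV
  have hTRZ : ST_TRZ.{u} := st_TRZ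
  have hTRM : ST_TRM.{u} := st_TRM hMDV
  have hMIN : ST_MIN.{u} := st_MIN
  have hWA : ST_WA.{u} := st_WA
  have hI3 : ST_I3.{u} := st_I3 hMPD hMDV hTRZ hTRM hMIN
  have hV3 : ST_V3.{u} := st_V3 hMPD hMDV
  have hU3 : ST_U3.{u} := st_U3 hMPD hMDV hTRM hMIN
  have hX3 : ST_X3.{u} := st_X3 hMPD hMDV hTRZ hTRM hMIN hI3 hV3 hU3
  have hY3 : ST_Y3.{u} := st_Y3 (st_K3 hMDV hMPD)
  exact st_C3d hWA hX3 hY3

theorem hand_C4b (hA4b : ST_A4b.{u}) : ST_C4b.{u} := by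
  have hMPD : ST_MPD.{u} := st_MPD st_SIMP
  have hMDV : ST_MDV.{u} := st_MDV
  have hG4b : ST_G4b.{u} := Pool.Agent.Helper25.PX.st_G4b hand_EE hMPD hMDV
  have hE4b : ST_E4b.{u} := st_E4b hA4b hG4b (st_W4b st_CEb) st_CEb
  exact st_C4b st_WA hE4b (st_Q2 st_WA hMPD hMDV) st_M4b

theorem core2_rows (hA4b : ST_A4b.{u}) (hI4b : ST_I4b.{u}) (hSC4b : ST_SC4b.{u})
    (hTZ : ST_TZ.{u}) : ST_CORE2.{u} := by
  have hTCS : ST_TCS.{u} := Pool.Agent.Helper2.PX.st_TCS st_SIMP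
  exact core2_of (hand_C4b hA4b) hand_C3 hand_C3d (st_B4b hI4b) st_B3
    Pool.Agent.Helper45.PXB.st_B3c (st_RELb hI4b) hSC4b st_SC3 st_SC3c st_T5b st_T6 hTZ
    st_CL4b st_CL3 st_CL3c st_DESC hTCS hand_PDAt st_FINK

end Pool.Agent.Helper75.PX
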