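import Pool.Agent.Helper75.PX.Stmts4
import Pool.Agent.Helper75.PX.M126

set_option autoImplicit false

universe u

open Module TensorProduct

namespace Pool.Agent.Helper75.PX

/-- primary decomposition in degree six, every characteristic -/
def ST_PD6t : Prop := ∀ (K A : Type u) [Field K] [Ring A] [Algebra K A] [Algebra.IsCentral K A]
  [IsSimpleRing A], finrank K A = 36 →
  ∃ (A₂ A₃ : Type u) (_ : Ring A₂) (_ : Algebra K A₂) (_ : Ring A₃) (_ : Algebra K A₃),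
    Algebra.IsCentral K A₂ ∧ IsSimpleRing A₂ ∧ Algebra.IsCentral K A₃ ∧ IsSimpleRing A₃ ∧
    finrank K A₂ = 4 ∧ finrank K A₃ = 9 ∧ Nonempty (A ≃ₐ[K] (A₂ ⊗[K] A₃))

/-- primary decomposition in degree six, from the rows -/
theorem pd6t_of (hWA : ST_WA.{u}) (hIND2 : ST_IND2t.{u}) (hIND3 : ST_IND3t.{u}) (hTM1 : ST_TM1.{u})
    (hTM2 : ST_TM2.{u}) (hMMM : ST_MMM.{u}) (hMCS : ST_MCS.{u}) (hUNI : ST_UNI.{u})
    (hCAN : ST_CAN.{u}) (hOPP : ST_OPP.{u}) (hTCS : ST_TCS.{u}) : ST_PD6t.{u} := by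
  intro K A _ _ _ _ _ hA
  have : FiniteDimensional K A := FiniteDimensional.of_finrank_pos (by omega)
  obtain ⟨C, _, _, _, _, hC, ⟨e2⟩⟩ := hIND2 K A 6 3 (by norm_num) (by rw [hA]; norm_num)
    (by norm_num) (gcdAux (by decide)) (by norm_num)
  have : FiniteDimensional K C := FiniteDimensional.of_finrank_pos (by rw [hC]; norm_num)
  obtain ⟨B, _, _, _, _, hB, ⟨e3⟩⟩ := hIND3 K A 6 4 (by norm_num) (by rw [hA]; norm_num)
    (by norm_num) (gcdAux (by decide)) (by norm_num)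
  have : FiniteDimensional K B := FiniteDimensional.of_finrank_pos (by rw [hB]; norm_num)
  change (A ⊗[K] A) ≃ₐ[K] Matrix (Fin 12) (Fin 12) C at e2
  change ((A ⊗[K] A) ⊗[K] A) ≃ₐ[K] Matrix (Fin 54) (Fin 54) B at e3
  obtain ⟨_, _⟩ := hTCS K C A
  obtain ⟨s, D, _, _, hs, _, _, hsD, ⟨f1⟩⟩ := hWA K B
  obtain ⟨r, D', _, _, hr, _, _, hrD, ⟨f2⟩⟩ := hWA K (C ⊗[K] A)
  obtain ⟨f3⟩ := hTM2 K C A 12
  obtain ⟨f4⟩ := hMMM K D' 12 r
  obtain ⟨f5⟩ := hMMM K D 54 s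
  have g1 : Matrix (Fin (12 * r)) (Fin (12 * r)) D' ≃ₐ[K] Matrix (Fin (54 * s)) (Fin (54 * s)) D :=
    f4.symm.trans <| f2.mapMatrix.symm.trans <| f3.symm.trans <|
      (Algebra.TensorProduct.congr e2.symm AlgEquiv.refl).trans <| e3.trans <|
      f1.mapMatrix.trans f5
  obtain ⟨h12, ⟨g2⟩⟩ := hUNI K D' D (12 * r) (54 * s) (by omega) (by omega) ⟨g1⟩
  obtain ⟨k, hk⟩ : ∃ k, s = 2 * k := ⟨s / 2, by omega⟩
  have hrk : r = 9 * k := by omega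
  have hk0 : 0 < k := by omega
  obtain ⟨_, _⟩ := hMCS K D k hk0
  obtain ⟨f6⟩ := hMMM K D 9 k
  have hdim : finrank K (Matrix (Fin k) (Fin k) D) = 4 := by
    rw [Module.finrank_matrix, Fintype.card_fin]
    rw [hB, hk] at hsD
    nlinarith [hsD]
  have g3 : (C ⊗[K] A) ≃ₐ[K] Matrix (Fin 9) (Fin 9) (Matrix (Fin k) (Fin k) D) := by
    subst hrk
    exact f2.trans (g2.mapMatrix.trans f6.symm)
  obtain ⟨_, _, hCo, ⟨f7⟩⟩ := hOPP K C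
  rw [hC] at f7
  change (Cᵐᵒᵖ ⊗[K] C) ≃ₐ[K] Matrix (Fin 9) (Fin 9) K at f7
  have : FiniteDimensional K Cᵐᵒᵖ := FiniteDimensional.of_finrank_pos (by rw [hCo, hC]; norm_num)
  obtain ⟨f8⟩ := hTM2 K K A 9
  obtain ⟨f9⟩ := hTM1 K Cᵐᵒᵖ (Matrix (Fin k) (Fin k) D) 9
  have g4 : (Cᵐᵒᵖ ⊗[K] (C ⊗[K] A)) ≃ₐ[K] Matrix (Fin 9) (Fin 9) A :=
    (Algebra.TensorProduct.assoc K K K Cᵐᵒᵖ C A).symm.trans <|
      (Algebra.TensorProduct.congr f7 AlgEquiv.refl).trans <| f8.trans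
        (Algebra.TensorProduct.lid K A).mapMatrix
  have g5 : (Cᵐᵒᵖ ⊗[K] (C ⊗[K] A)) ≃ₐ[K]
      Matrix (Fin 9) (Fin 9) (Cᵐᵒᵖ ⊗[K] Matrix (Fin k) (Fin k) D) :=
    (Algebra.TensorProduct.congr AlgEquiv.refl g3).trans f9
  obtain ⟨_, _⟩ := hTCS K Cᵐᵒᵖ (Matrix (Fin k) (Fin k) D)
  obtain ⟨g6⟩ := hCAN K A (Cᵐᵒᵖ ⊗[K] Matrix (Fin k) (Fin k) D) 9 (by norm_num)
    ⟨g4.symm.trans g5⟩
  exact ⟨Matrix (Fin k) (Fin k) D, Cᵐᵒᵖ, inferInstance, inferInstance, inferInstance,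
    inferInstance, inferInstance, inferInstance, inferInstance, inferInstance, hdim,
    by rw [hCo, hC]; norm_num, ⟨g6.trans (Algebra.TensorProduct.comm K _ _)⟩⟩


/-- characteristic two, and characteristic not two from the earlier theorem -/
theorem m6t_of (hM6 : ST_M6.{u}) (hQ2 : ST_Q2.{u}) (hC3 : ST_C3.{u}) (hB2 : ST_B2c.{u})
    (hB3 : ST_B3.{u}) (hSC2 : ST_SC2c.{u}) (hCL2 : ST_CL2c.{u}) (hCL3 : ST_CL3.{u})
    (hDESC : ST_DESC.{u}) (hTCS : ST_TCS.{u}) (hSC3 : ST_SC3.{u}) (hC3d : ST_C3d.{u})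
    (hB3c : ST_B3c.{u}) (hSC3c : ST_SC3c.{u}) (hCL3c : ST_CL3c.{u}) (hT6 : ST_T6.{u})
    (hT5z : ∀ (F K : Type u) [Field F] [Field K] [Algebra F K] (a b d ζ : K),
      ζ ^ 2 + ζ + 1 = 0 →
      Algebra.trdeg F (IntermediateField.adjoin F ((((∅ ∪ {a}) ∪ {b}) ∪ {d}) ∪ {ζ} : Set K)) ≤ 3)
    (hPD6 : ST_PD6t.{u}) (hFIN : ST_FIN2.{u}) : ST_M6t.{u} := by
  intro F K A _ _ _ _ _ _ _ h3F hA
  by_cases h2F : (2 : F) ≠ 0
  · exact hM6 F K A h2F h3F hA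
  rw [not_not] at h2F
  have h2 : (2 : K) = 0 := by
    have := congrArg (algebraMap F K) h2F
    rwa [map_ofNat, map_zero] at this
  have h3 : (3 : K) ≠ 0 := by
    intro h; apply h3F; apply (algebraMap F K).injective; rw [map_ofNat, map_zero]; exact h
  by_cases hs : ∃ s : K, s ≠ 0 ∧ s + 1 ≠ 0
  swap
  · obtain ⟨L, B, iB1, iB2, hB0, hB1, hB2, hB3, hB4⟩ := hFIN F K A (by
      intro s
      by_contra hc
      rw [not_or] at hc
      exact hs ⟨s, hc⟩)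
    exact ⟨L, B, iB1, iB2, hB0, hB1, hB2, by rw [hB3, hA], hB4⟩
  obtain ⟨A₂, A₃, _, _, _, _, _, _, _, _, h4, h9, ⟨eA⟩⟩ := hPD6 K A hA
  have : FiniteDimensional K A₂ := FiniteDimensional.of_finrank_pos (by omega)
  have : FiniteDimensional K A₃ := FiniteDimensional.of_finrank_pos (by omega)
  obtain ⟨g, k₀, a, b₀, h20⟩ := hQ2 K A₂ h4 h2
  by_cases hz : ∃ ζ : K, ζ ^ 2 + ζ + 1 = 0
  · obtain ⟨ζ, hζ⟩ := hz
    obtain ⟨i₀, j, c₀, d, h30⟩ := hC3 K A₃ ζ h9 h3 hζ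
    have hl : c₀ / b₀ ≠ 0 := div_ne_zero h30.c0 h20.b0
    set l : K := c₀ / b₀ with hldef
    have hq := hSC2 K A₂ g k₀ a b₀ (l ^ 2) (pow_ne_zero 2 hl) h20
    have h3' := hSC3 K A₃ ζ i₀ j c₀ d l 1 hl one_ne_zero h30
    have hb0 := h20.b0
    have hc0 : c₀ = l * b₀ := by rw [hldef]; field_simp
    have hc : c₀ * l ^ 3 = b₀ * (l ^ 2) ^ 2 := by rw [hc0]; ring
    rw [hc, one_pow, mul_one, one_smul] at h3'
    clear_value l
    revert hq h3'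
    generalize l ^ 2 • k₀ = k
    generalize l • i₀ = i
    generalize b₀ * (l ^ 2) ^ 2 = b
    intro hq h3'
    have htr := hT5z F K a b d ζ hζ
    set L : IntermediateField F K :=
      IntermediateField.adjoin F ((((∅ ∪ {a}) ∪ {b}) ∪ {d}) ∪ {ζ} : Set K) with hL
    have hsub : ((((∅ ∪ {a}) ∪ {b}) ∪ {d}) ∪ {ζ} : Set K) ⊆ (L : Set K) :=
      IntermediateField.subset_adjoin F _
    have haL : a ∈ L := hsub (by simp)
    have hbL : b ∈ L := hsub (by simp)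
    have hdL : d ∈ L := hsub (by simp)
    have hζL : ζ ∈ L := hsub (by simp)
    clear_value L
    obtain ⟨B, iB1, iB2, hB1, hB2, hB3, ⟨hB4⟩⟩ := descTensor hDESC hTCS L _ _ (e2q g k)
      (e3 i j) (hB2 K A₂ g k a b h2 hq) (hB3 K A₃ ζ i j _ _ h3 hζ h3')
      (by rw [h4]; simp) (by rw [h9]; simp)
      (Submodule.subset_span ⟨(0, 0), by simp [e2q]⟩)
      (Submodule.subset_span ⟨(0, 0), by simp [e3]⟩)
      (hCL2 F K A₂ L g k a b hq haL hbL)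
      (hCL3 F K A₃ L ζ i j _ _ h3' hζL hζ hbL hdL)
    exact ⟨L, B, iB1, iB2, htr, hB1, hB2, by rw [hB3, h4, h9], ⟨hB4.trans eA.symm⟩⟩
  · have hz' : ∀ ζ : K, ζ ^ 2 + ζ + 1 ≠ 0 := fun ζ h => hz ⟨ζ, h⟩
    obtain ⟨y, u₀, t, c₀, h30⟩ := hC3d K A₃ h9 h3 hs hz'
    have hb0 := h20.b0
    have hl : c₀ / b₀ ≠ 0 := div_ne_zero h30.c0 hb0
    set l : K := c₀ / b₀ with hldef
    have hq := hSC2 K A₂ g k₀ a b₀ (l ^ 2) (pow_ne_zero 2 hl) h20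
    have h3' := hSC3c K A₃ y u₀ t c₀ l hl h30
    have hc0 : c₀ = l * b₀ := by rw [hldef]; field_simp
    have hc : c₀ * l ^ 3 = b₀ * (l ^ 2) ^ 2 := by rw [hc0]; ring
    rw [hc] at h3'
    clear_value l
    revert hq h3'
    generalize l ^ 2 • k₀ = k
    generalize l • u₀ = u
    generalize b₀ * (l ^ 2) ^ 2 = b
    intro hq h3'
    have htr := adj3 hT6 F K a b t
    set L : IntermediateField F K :=
      IntermediateField.adjoin F (((∅ ∪ {a}) ∪ {b}) ∪ {t} : Set K) with hL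
    have hsub : (((∅ ∪ {a}) ∪ {b}) ∪ {t} : Set K) ⊆ (L : Set K) :=
      IntermediateField.subset_adjoin F _
    have haL : a ∈ L := hsub (by simp)
    have hbL : b ∈ L := hsub (by simp)
    have htL : t ∈ L := hsub (by simp)
    clear_value L
    obtain ⟨B, iB1, iB2, hB1, hB2, hB3, ⟨hB4⟩⟩ := descTensor hDESC hTCS L _ _ (e2q g k)
      (e3c y u) (hB2 K A₂ g k a b h2 hq) (hB3c K A₃ y u t _ h3 hz' h3')
      (by rw [h4]; simp) (by rw [h9]; simp)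
      (Submodule.subset_span ⟨(0, 0), by simp [e2q]⟩)
      (Submodule.subset_span ⟨(0, 0), by simp [e3c]⟩)
      (hCL2 F K A₂ L g k a b hq haL hbL)
      (hCL3c F K A₃ L y u t _ h3' htL hbL)
    exact ⟨L, B, iB1, iB2, htr, hB1, hB2, by rw [hB3, h4, h9], ⟨hB4.trans eA.symm⟩⟩

end Pool.Agent.Helper75.PX
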