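import Pool.Agent.Helper75.PX.MainAux
import Pool.Agent.Helper48.PX.SIMP
import Pool.Agent.Helper21.PX.MPD
import Pool.Agent.Helper4.PX.MDV
import Pool.Agent.Helper50.PX.TRZ
import Pool.Agent.Helper32.PX.TRM
import Pool.Agent.Helper38.PX.MIN
import Pool.Agent.Helper45.PX.WA
import Pool.Agent.Helper81.PX.A4
import Pool.Agent.Helper5.PX.G1
import Pool.Agent.Helper60.PX.G4
import Pool.Agent.Helper12.PX.W4
import Pool.Agent.Helper34.PX.CE
import Pool.Agent.Helper16.PX.E4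
import Pool.Agent.Helper68.PX.Q4
import Pool.Agent.Helper56.PX.M4
import Pool.Agent.Helper64.PX.C4
import Pool.Agent.Helper31.PX.I3
import Pool.Agent.Helper96.PX.J3
import Pool.Agent.Helper51.PX.C3
import Pool.Agent.Helper41.PX.I4
import Pool.Agent.Helper1.PX.B4
import Pool.Agent.Helper39.PX.B3
import Pool.Agent.Helper9.PX.REL
import Pool.Agent.Helper98.PX.NZ
import Pool.Agent.Helper67.PX.SC4
import Pool.Agent.Helper90.PX.SC3
import Pool.Agent.Helper73.PX.T5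
import Pool.Agent.Helper95.PX.CL4
import Pool.Agent.Helper89.PX.CL3
import Pool.Agent.Helper80.PX.DESC
import Pool.Agent.Helper2.PX.TCS

set_option autoImplicit false

universe u

namespace Pool.Agent.Helper75.PX

theorem st_MAIN : ST_MAIN.{u} := by
  have hSIMP : ST_SIMP.{u} := Pool.Agent.Helper75.PX.st_SIMP
  have hMPD : ST_MPD.{u} := Pool.Agent.Helper75.PX.st_MPD hSIMP
  have hMDV : ST_MDV.{u} := Pool.Agent.Helper75.PX.st_MDV
  have hTRZ : ST_TRZ.{u} := Pool.Agent.Helper75.PX.st_TRZ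
  have hTRM : ST_TRM.{u} := Pool.Agent.Helper75.PX.st_TRM hMDV
  have hMIN : ST_MIN.{u} := Pool.Agent.Helper75.PX.st_MIN
  have hWA : ST_WA.{u} := Pool.Agent.Helper75.PX.st_WA
  have hA4 : ST_A4.{u} := Pool.Agent.Helper75.PX.st_A4 hMPD hMDV hTRZ hTRM hMIN
  have hG1 : ST_G1.{u} := Pool.Agent.Helper75.PX.st_G1
  have hG4 : ST_G4.{u} := Pool.Agent.Helper60.PX.st_G4 hMPD hMDV
  have hW4 : ST_W4.{u} := Pool.Agent.Helper75.PX.st_W4
  have hCE : ST_CE.{u} := Pool.Agent.Helper75.PX.st_CE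
  have hE4 : ST_E4.{u} := Pool.Agent.Helper75.PX.st_E4 hA4 hG1 hG4 hW4 hCE
  have hQ4 : ST_Q4.{u} := Pool.Agent.Helper75.PX.st_Q4 hWA hMPD hMDV
  have hM4 : ST_M4.{u} := Pool.Agent.Helper75.PX.st_M4
  have hC4 : ST_C4.{u} := Pool.Agent.Helper75.PX.st_C4 hWA hE4 hQ4 hM4
  have hI3 : ST_I3.{u} := Pool.Agent.Helper75.PX.st_I3 hMPD hMDV hTRZ hTRM hMIN
  have hJ3 : ST_J3.{u} := Pool.Agent.Helper75.PX.st_J3
  have hC3 : ST_C3.{u} := Pool.Agent.Helper51.PX.st_C3 hWA hI3 hJ3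
  have hI4 : ST_I4.{u} := Pool.Agent.Helper75.PX.st_I4
  have hB4 : ST_B4.{u} := Pool.Agent.Helper75.PX.st_B4 hI4
  have hB3 : ST_B3.{u} := Pool.Agent.Helper75.PX.st_B3
  have hREL : ST_REL.{u} := Pool.Agent.Helper9.PX.st_REL hI4
  have hNZ : ST_NZ.{u} := Pool.Agent.Helper98.PX.st_NZ
  have hSC4 : ST_SC4.{u} := Pool.Agent.Helper75.PX.st_SC4
  have hSC3 : ST_SC3.{u} := Pool.Agent.Helper75.PX.st_SC3
  have hT5 : ST_T5.{u} := Pool.Agent.Helper75.PX.st_T5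
  have hCL4 : ST_CL4.{u} := Pool.Agent.Helper75.PX.st_CL4
  have hCL3 : ST_CL3.{u} := Pool.Agent.Helper75.PX.st_CL3
  have hDESC : ST_DESC.{u} := Pool.Agent.Helper75.PX.st_DESC
  have hTCS : ST_TCS.{u} := Pool.Agent.Helper2.PX.st_TCS hSIMP
  exact main_of hC4 hC3 hB4 hB3 hREL hNZ hSC4 hSC3 hT5 hCL4 hCL3 hDESC hTCS

end Pool.Agent.Helper75.PX
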