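import Pool.Agent.Helper75.PX.Stmts2

set_option autoImplicit false

universe u

open Module TensorProduct

namespace Pool.Agent.Helper75.PX

theorem gcdAux {a b m : ℕ} (h : Nat.gcd a b = m) (δ : ℕ) (h1 : δ ∣ a) (h2 : δ ∣ b) : δ ∣ m :=
  h ▸ Nat.dvd_gcd h1 h2

/-- primary decomposition, from the rows -/
theorem pda_of (hIND2 : ST_IND2.{u}) (hIND3 : ST_IND3.{u}) (hTM1 : ST_TM1.{u})
    (hTM2 : ST_TM2.{u}) (hMMM : ST_MMM.{u}) (hMCS : ST_MCS.{u}) (hCAN : ST_CAN.{u})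
    (hOPP : ST_OPP.{u}) (hTCS : ST_TCS.{u}) : ST_PDA.{u} := by
  intro K A _ _ _ _ _ h2 h3 hA
  have : FiniteDimensional K A := FiniteDimensional.of_finrank_pos (by omega)
  have h12 : ((12 : ℕ) : K) ≠ 0 := by
    have : ((12 : ℕ) : K) = 2 * 2 * 3 := by norm_num
    rw [this]; exact mul_ne_zero (mul_ne_zero h2 h2) h3
  have h6 : ((6 : ℕ) : K) ≠ 0 := by
    have : ((6 : ℕ) : K) = 2 * 3 := by norm_num
    rw [this]; exact mul_ne_zero h2 h3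
  obtain ⟨A2, _, _, _, _, hA2, ⟨e1⟩⟩ := hIND2 K A 12 6 (by norm_num) (by rw [hA]; norm_num) h12
    (by norm_num) (gcdAux (by decide)) (by norm_num)
  have : FiniteDimensional K A2 := FiniteDimensional.of_finrank_pos (by rw [hA2]; norm_num)
  obtain ⟨C, _, _, _, _, hC, ⟨e2⟩⟩ := hIND2 K A2 6 3 (by norm_num) (by rw [hA2]) h6
    (by norm_num) (gcdAux (by decide)) (by norm_num)
  have : FiniteDimensional K C := FiniteDimensional.of_finrank_pos (by rw [hC]; norm_num)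
  obtain ⟨B, _, _, _, _, hB, ⟨e3⟩⟩ := hIND3 K A 12 4 (by norm_num) (by rw [hA]; norm_num) h12
    (by norm_num) (gcdAux (by decide)) (by norm_num)
  have : FiniteDimensional K B := FiniteDimensional.of_finrank_pos (by rw [hB]; norm_num)
  change (A ⊗[K] A) ≃ₐ[K] Matrix (Fin 24) (Fin 24) A2 at e1
  change (A2 ⊗[K] A2) ≃ₐ[K] Matrix (Fin 12) (Fin 12) C at e2
  change ((A ⊗[K] A) ⊗[K] A) ≃ₐ[K] Matrix (Fin 432) (Fin 432) B at e3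
  -- chain 1
  obtain ⟨f1⟩ := hTM2 K A2 (Matrix (Fin 24) (Fin 24) A2) 24
  obtain ⟨f2⟩ := hTM1 K A2 A2 24
  obtain ⟨f3⟩ := hMMM K (A2 ⊗[K] A2) 24 24
  obtain ⟨f4⟩ := hMMM K C 576 12
  obtain ⟨f5⟩ := hMMM K C 432 16
  change Matrix (Fin 24) (Fin 24) (Matrix (Fin 24) (Fin 24) (A2 ⊗[K] A2)) ≃ₐ[K]
    Matrix (Fin 576) (Fin 576) (A2 ⊗[K] A2) at f3
  change Matrix (Fin 576) (Fin 576) (Matrix (Fin 12) (Fin 12) C) ≃ₐ[K]
    Matrix (Fin 6912) (Fin 6912) C at f4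
  change Matrix (Fin 432) (Fin 432) (Matrix (Fin 16) (Fin 16) C) ≃ₐ[K]
    Matrix (Fin 6912) (Fin 6912) C at f5
  have g1 : ((A ⊗[K] A) ⊗[K] (A ⊗[K] A)) ≃ₐ[K]
      Matrix (Fin 432) (Fin 432) (Matrix (Fin 16) (Fin 16) C) :=
    (Algebra.TensorProduct.congr e1 e1).trans <| f1.trans <| f2.mapMatrix.trans <|
      f3.trans <| e2.mapMatrix.trans <| f4.trans f5.symm
  -- chain 2
  obtain ⟨f6⟩ := hTM2 K B A 432
  have g2 : ((A ⊗[K] A) ⊗[K] (A ⊗[K] A)) ≃ₐ[K]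
      Matrix (Fin 432) (Fin 432) (B ⊗[K] A) :=
    (Algebra.TensorProduct.assoc K K K (A ⊗[K] A) A A).symm.trans <|
      (Algebra.TensorProduct.congr e3 AlgEquiv.refl).trans f6
  obtain ⟨_, _⟩ := hTCS K B A
  obtain ⟨_, _⟩ := hMCS K C 16 (by norm_num)
  obtain ⟨g3⟩ := hCAN K (B ⊗[K] A) (Matrix (Fin 16) (Fin 16) C) 432 (by norm_num)
    ⟨g2.symm.trans g1⟩
  -- the opposite algebra
  obtain ⟨_, _, hBo, ⟨f7⟩⟩ := hOPP K B
  rw [hB] at f7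
  change (Bᵐᵒᵖ ⊗[K] B) ≃ₐ[K] Matrix (Fin 16) (Fin 16) K at f7
  have : FiniteDimensional K Bᵐᵒᵖ := FiniteDimensional.of_finrank_pos (by rw [hBo, hB]; norm_num)
  obtain ⟨f8⟩ := hTM2 K K A 16
  obtain ⟨f9⟩ := hTM1 K Bᵐᵒᵖ C 16
  have g4 : (Bᵐᵒᵖ ⊗[K] (B ⊗[K] A)) ≃ₐ[K] Matrix (Fin 16) (Fin 16) A :=
    (Algebra.TensorProduct.assoc K K K Bᵐᵒᵖ B A).symm.trans <|
      (Algebra.TensorProduct.congr f7 AlgEquiv.refl).trans <| f8.trans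
        (Algebra.TensorProduct.lid K A).mapMatrix
  have g5 : (Bᵐᵒᵖ ⊗[K] (B ⊗[K] A)) ≃ₐ[K] Matrix (Fin 16) (Fin 16) (Bᵐᵒᵖ ⊗[K] C) :=
    (Algebra.TensorProduct.congr AlgEquiv.refl g3).trans f9
  obtain ⟨_, _⟩ := hTCS K Bᵐᵒᵖ C
  obtain ⟨g6⟩ := hCAN K A (Bᵐᵒᵖ ⊗[K] C) 16 (by norm_num) ⟨g4.symm.trans g5⟩
  exact ⟨Bᵐᵒᵖ, C, inferInstance, inferInstance, inferInstance, inferInstance, inferInstance,
    inferInstance, inferInstance, inferInstance, by rw [hBo, hB]; norm_num, by rw [hC]; norm_num,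
    ⟨g6⟩⟩

/-- the main theorem from the decomposition -/
theorem main2_of (hM : ST_MAIN.{u}) (hP : ST_PDA.{u}) : ST_MAIN2.{u} := by
  intro F K A _ _ _ _ _ _ _ h2F h3F hζ hA
  have h2 : (2 : K) ≠ 0 := by
    intro h; apply h2F; apply (algebraMap F K).injective; rw [map_ofNat, map_zero]; exact h
  have h3 : (3 : K) ≠ 0 := by
    intro h; apply h3F; apply (algebraMap F K).injective; rw [map_ofNat, map_zero]; exact h
  obtain ⟨A₄, A₃, _, _, _, _, _, _, _, _, h16, h9, ⟨e⟩⟩ := hP K A h2 h3 hA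
  obtain ⟨L, B, iB1, iB2, h1, hB1, hB2, hB3, ⟨f⟩⟩ := hM F K A₄ A₃ h2F h3F hζ h16 h9
  exact ⟨L, B, iB1, iB2, h1, hB1, hB2, hB3, ⟨f.trans e.symm⟩⟩

end Pool.Agent.Helper75.PX
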