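import Pool.Agent.Helper75.PX.Main
import Pool.Agent.Helper75.PX.Pda
import Pool.Agent.Helper84.PX.EMB
import Pool.Agent.Helper2.PX.KRO
import Pool.Agent.Helper33.PX.GOL
import Pool.Agent.Helper13.PX.RK2
import Pool.Agent.Helper92.PX.DIM
import Pool.Agent.Helper80.PX.MCR
import Pool.Agent.Helper1.PX.MMM
import Pool.Agent.Helper39.PX.MCS
import Pool.Agent.Helper81.PX.INDG
import Pool.Agent.Helper7.PX.IND2
import Pool.Agent.Helper12.PX.IND3
import Pool.Agent.Helper56.PX.TM1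
import Pool.Agent.Helper22.PX.TM2
import Pool.Agent.Helper89.PX.UNI
import Pool.Agent.Helper77.PX.CAN
import Pool.Agent.Helper51.PX.OPP

set_option autoImplicit false

universe u

namespace Pool.Agent.Helper75.PX

/-- primary decomposition in degree twelve -/
theorem pda_of_rk3 (hRK3 : ST_RK3.{u}) : ST_PDA.{u} := by
  have hSIMP : ST_SIMP.{u} := Pool.Agent.Helper75.PX.st_SIMP
  have hWA : ST_WA.{u} := Pool.Agent.Helper75.PX.st_WA
  have hTCS : ST_TCS.{u} := Pool.Agent.Helper2.PX.st_TCS hSIMP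
  have hEMB : ST_EMB.{u} := st_EMB hSIMP
  have hKRO : ST_KRO.{u} := Pool.Agent.Helper2.PX.st_KRO
  have hGOL : ST_GOL.{u} := st_GOL
  have hMMM : ST_MMM.{u} := st_MMM
  have hMCS : ST_MCS.{u} := st_MCS
  have hINDG : ST_INDG.{u} := st_INDG hWA st_DIM st_MCR hMMM hMCS
  have hIND2 : ST_IND2.{u} := st_IND2 hEMB hKRO hGOL st_RK2 hINDG hTCS
  have hIND3 : ST_IND3.{u} := st_IND3 hEMB hKRO hGOL hRK3 hINDG hTCS
  have hTM1 : ST_TM1.{u} := st_TM1
  have hTM2 : ST_TM2.{u} := st_TM2 hTM1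
  have hCAN : ST_CAN.{u} := st_CAN hWA hMMM st_UNI
  have hOPP : ST_OPP.{u} := Pool.Agent.Helper51.PX.st_OPP hTCS
  exact pda_of hIND2 hIND3 hTM1 hTM2 hMMM hMCS hCAN hOPP hTCS

/-- the main theorem for all algebras of degree twelve -/
theorem main2_of_rk3 (hRK3 : ST_RK3.{u}) : ST_MAIN2.{u} := main2_of st_MAIN (pda_of_rk3 hRK3)

end Pool.Agent.Helper75.PX
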