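import Pool.Agent.Helper75.PX.Stmts

set_option autoImplicit false

universe u

open Module TensorProduct

namespace Pool.Agent.Helper75.PX

theorem memSpanMul {F K A₄ A₃ A : Type u} [Field F] [Field K] [Algebra F K]
    [Ring A₄] [Algebra K A₄] [Ring A₃] [Algebra K A₃] [Ring A] [Algebra K A]
    (L : IntermediateField F K) (φ : A₄ →ₐ[K] A) (ψ : A₃ →ₐ[K] A)
    {ι κ : Type} (e : ι → A₄) (f : κ → A₃) (x : A₄) (y : A₃)
    (hx : x ∈ Submodule.span L (Set.range e)) (hy : y ∈ Submodule.span L (Set.range f)) :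
    φ x * ψ y ∈ Submodule.span L (Set.range (fun s : ι × κ => φ (e s.1) * ψ (f s.2))) := by
  induction hx using Submodule.span_induction with
  | zero => simp
  | add x1 x2 _ _ h1 h2 =>
    rw [map_add, add_mul]; exact Submodule.add_mem _ h1 h2
  | smul l x1 _ h1 =>
    have : φ (l • x1) * ψ y = l • (φ x1 * ψ y) := by
      have e1 : l • x1 = (l : K) • x1 := rfl
      have e2 : l • (φ x1 * ψ y) = (l : K) • (φ x1 * ψ y) := rfl
      rw [e1, e2, map_smul, smul_mul_assoc]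
    rw [this]; exact Submodule.smul_mem _ _ h1
  | mem x1 h1 =>
    obtain ⟨s, rfl⟩ := h1
    induction hy using Submodule.span_induction with
    | zero => simp
    | add y1 y2 _ _ h1 h2 =>
      rw [map_add, mul_add]; exact Submodule.add_mem _ h1 h2
    | smul l y1 _ h1 =>
      have : φ (e s) * ψ (l • y1) = l • (φ (e s) * ψ y1) := by
        have e1 : l • y1 = (l : K) • y1 := rfl
        have e2 : l • (φ (e s) * ψ y1) = (l : K) • (φ (e s) * ψ y1) := rfl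
        rw [e1, e2, map_smul, mul_smul_comm]
      rw [this]; exact Submodule.smul_mem _ _ h1
    | mem y1 h1 =>
      obtain ⟨t, rfl⟩ := h1
      exact Submodule.subset_span ⟨(s, t), rfl⟩

/-- the assembly, with the rows as hypotheses -/
theorem main_of (hC4 : ST_C4.{u}) (hC3 : ST_C3.{u}) (hB4 : ST_B4.{u}) (hB3 : ST_B3.{u})
    (hREL : ST_REL.{u}) (hNZ : ST_NZ.{u}) (hSC4 : ST_SC4.{u}) (hSC3 : ST_SC3.{u})
    (hT5 : ST_T5.{u}) (hCL4 : ST_CL4.{u}) (hCL3 : ST_CL3.{u}) (hDESC : ST_DESC.{u})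
    (hTCS : ST_TCS.{u}) : ST_MAIN.{u} := by
  intro F K A₄ A₃ _ _ _ _ _ _ _ _ _ _ _ h2F h3F hζF h16 h9
  obtain ⟨ζ₀, hζ₀⟩ := hζF
  have h2 : (2 : K) ≠ 0 := by
    intro h; apply h2F; apply (algebraMap F K).injective; rw [map_ofNat, map_zero]; exact h
  have h3 : (3 : K) ≠ 0 := by
    intro h; apply h3F; apply (algebraMap F K).injective; rw [map_ofNat, map_zero]; exact h
  have hζ : (algebraMap F K ζ₀) ^ 2 + (algebraMap F K ζ₀) + 1 = 0 := by
    rw [← map_pow, ← map_add, ← map_one (algebraMap F K), ← map_add, hζ₀, map_zero]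
  have : FiniteDimensional K A₄ := FiniteDimensional.of_finrank_pos (by omega)
  have : FiniteDimensional K A₃ := FiniteDimensional.of_finrank_pos (by omega)
  obtain ⟨α₀, β₀, z₀, w₀, a₀, b₀, p₀, r₀, v₀, h40⟩ := hC4 K A₄ h16 h2 h3
  obtain ⟨i₀, j₀, c₀, d₀, h30⟩ := hC3 K A₃ (algebraMap F K ζ₀) h9 h3 hζ
  obtain ⟨hN1, hN2⟩ := hNZ K A₄ α₀ β₀ z₀ w₀ a₀ b₀ p₀ r₀ v₀ h2 h40
  have hl : c₀ / (p₀ ^ 2 - b₀) ≠ 0 := div_ne_zero h30.c0 hN1
  have hm : d₀ / (r₀ ^ 2 - a₀) ≠ 0 := div_ne_zero h30.d0 hN2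
  set l : K := c₀ / (p₀ ^ 2 - b₀) with hldef
  set m : K := d₀ / (r₀ ^ 2 - a₀) with hmdef
  have h4 := hSC4 K A₄ α₀ β₀ z₀ w₀ a₀ b₀ p₀ r₀ v₀ l m hl hm h40
  have h3' := hSC3 K A₃ (algebraMap F K ζ₀) i₀ j₀ c₀ d₀ l m hl hm h30
  have hc0 : c₀ = l * (p₀ ^ 2 - b₀) := by rw [hldef]; field_simp
  have hd0 : d₀ = m * (r₀ ^ 2 - a₀) := by rw [hmdef]; field_simp
  have hc : c₀ * l ^ 3 = (l ^ 2 * p₀) ^ 2 - l ^ 4 * b₀ := by rw [hc0]; ring
  have hd : d₀ * m ^ 3 = (m ^ 2 * r₀) ^ 2 - m ^ 4 * a₀ := by rw [hd0]; ring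
  rw [hc, hd] at h3'
  clear_value l m
  revert h4 h3'
  generalize m ^ 2 • α₀ = α
  generalize l ^ 2 • β₀ = β
  generalize l • z₀ = z
  generalize m • w₀ = w
  generalize l • i₀ = i
  generalize m • j₀ = j
  generalize m ^ 4 * a₀ = a
  generalize l ^ 4 * b₀ = b
  generalize l ^ 2 * p₀ = p
  generalize m ^ 2 * r₀ = r
  generalize ![v₀ 0, v₀ 1 / m ^ 2, v₀ 2 / l ^ 2, v₀ 3 / (l ^ 2 * m ^ 2)] = v
  intro h4 h3'
  have hrel := hREL K A₄ α β z w a b p r v h2 h4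
  obtain ⟨hM1, hM2⟩ := hNZ K A₄ α β z w a b p r v h2 h4
  have htr := hT5 F K a b p r v h2 h4.a0 h4.b0 hM1 hM2 hrel
  set L : IntermediateField F K :=
    IntermediateField.adjoin F (({a, b, p, r} : Set K) ∪ Set.range v) with hL
  have hsub : (({a, b, p, r} : Set K) ∪ Set.range v) ⊆ (L : Set K) :=
    IntermediateField.subset_adjoin F _
  have haL : a ∈ L := hsub (Or.inl (by simp))
  have hbL : b ∈ L := hsub (Or.inl (by simp))
  have hpL : p ∈ L := hsub (Or.inl (by simp))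
  have hrL : r ∈ L := hsub (Or.inl (by simp))
  have hvL : ∀ k, v k ∈ L := fun k => hsub (Or.inr ⟨k, rfl⟩)
  have hζL : algebraMap F K ζ₀ ∈ L := L.algebraMap_mem ζ₀
  have hcL : p ^ 2 - b ∈ L := L.sub_mem (pow_mem hpL 2) hbL
  have hdL : r ^ 2 - a ∈ L := L.sub_mem (pow_mem hrL 2) haL
  clear_value L
  have hcl4 := hCL4 F K A₄ L α β z w a b p r v h4 haL hbL hpL hrL hvL
  have hcl3 := hCL3 F K A₃ L (algebraMap F K ζ₀) i j _ _ h3' hζL hζ hcL hdL
  have hli4 := hB4 K A₄ α β z w a b p r v h2 h4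
  have hli3 := hB3 K A₃ (algebraMap F K ζ₀) i j _ _ h3 hζ h3'
  have hcs := hTCS K A₄ A₃
  have := hcs.1
  have := hcs.2
  let b4 := basisOfLinearIndependentOfCardEqFinrank hli4 (by rw [h16]; simp)
  let b3 := basisOfLinearIndependentOfCardEqFinrank hli3 (by rw [h9]; simp)
  have hb4 : ∀ s, b4 s = e4 α β z w s := fun s => by
    simp [b4]
  have hb3 : ∀ s, b3 s = e3 i j s := fun s => by
    simp [b3]
  let e := b4.tensorProduct b3
  have he : (e : _ → A₄ ⊗[K] A₃) = fun s =>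
      (Algebra.TensorProduct.includeLeft : A₄ →ₐ[K] A₄ ⊗[K] A₃) (e4 α β z w s.1) *
      (Algebra.TensorProduct.includeRight : A₃ →ₐ[K] A₄ ⊗[K] A₃) (e3 i j s.2) := by
    funext s
    obtain ⟨s1, s2⟩ := s
    rw [Basis.tensorProduct_apply, hb4, hb3]
    simp
  have key := fun (x : A₄) (y : A₃) => memSpanMul L
    (Algebra.TensorProduct.includeLeft : A₄ →ₐ[K] A₄ ⊗[K] A₃)
    (Algebra.TensorProduct.includeRight : A₃ →ₐ[K] A₄ ⊗[K] A₃)
    (e4 α β z w) (e3 i j) x y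
  obtain ⟨B, iB1, iB2, hB1, hB2, hB3, hB4⟩ := hDESC F K (A₄ ⊗[K] A₃) L _ e (by
    rw [he]
    have := key 1 1 (Submodule.subset_span ⟨(0, 0, 0, 0), by simp [e4]⟩)
      (Submodule.subset_span ⟨(0, 0), by simp [e3]⟩)
    rw [map_one, map_one, one_mul] at this
    exact this) (by
    intro s t
    rw [he]
    have h5 := key _ _ (hcl4 s.1 t.1) (hcl3 s.2 t.2)
    have h6 : (Algebra.TensorProduct.includeLeft : A₄ →ₐ[K] A₄ ⊗[K] A₃) (e4 α β z w s.1) *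
      (Algebra.TensorProduct.includeRight : A₃ →ₐ[K] A₄ ⊗[K] A₃) (e3 i j s.2) *
      ((Algebra.TensorProduct.includeLeft : A₄ →ₐ[K] A₄ ⊗[K] A₃) (e4 α β z w t.1) *
      (Algebra.TensorProduct.includeRight : A₃ →ₐ[K] A₄ ⊗[K] A₃) (e3 i j t.2)) =
      (Algebra.TensorProduct.includeLeft : A₄ →ₐ[K] A₄ ⊗[K] A₃)
        (e4 α β z w s.1 * e4 α β z w t.1) *
      (Algebra.TensorProduct.includeRight : A₃ →ₐ[K] A₄ ⊗[K] A₃) (e3 i j s.2 * e3 i j t.2) := by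
      simp
    rw [← h6] at h5
    exact h5)
  refine ⟨L, B, iB1, iB2, htr, hB1, hB2, ?_, hB4⟩
  rw [hB3]; simp

end Pool.Agent.Helper75.PX
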