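import Pool.Agent.Helper75.PX.Stmts3
import Pool.Agent.Helper75.PX.Pda
import Pool.Agent.Helper75.PX.MainAux

set_option autoImplicit false

universe u

open Module TensorProduct

namespace Pool.Agent.Helper75.PX

/-- primary decomposition in degree six, from the rows -/
theorem pd6_of (hWA : ST_WA.{u}) (hIND2 : ST_IND2.{u}) (hIND3 : ST_IND3.{u}) (hTM1 : ST_TM1.{u})
    (hTM2 : ST_TM2.{u}) (hMMM : ST_MMM.{u}) (hMCS : ST_MCS.{u}) (hUNI : ST_UNI.{u})
    (hCAN : ST_CAN.{u}) (hOPP : ST_OPP.{u}) (hTCS : ST_TCS.{u}) : ST_PD6.{u} := by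
  intro K A _ _ _ _ _ h2 h3 hA
  have : FiniteDimensional K A := FiniteDimensional.of_finrank_pos (by omega)
  have h6 : ((6 : ℕ) : K) ≠ 0 := by
    have : ((6 : ℕ) : K) = 2 * 3 := by norm_num
    rw [this]; exact mul_ne_zero h2 h3
  obtain ⟨C, _, _, _, _, hC, ⟨e2⟩⟩ := hIND2 K A 6 3 (by norm_num) (by rw [hA]; norm_num) h6
    (by norm_num) (gcdAux (by decide)) (by norm_num)
  have : FiniteDimensional K C := FiniteDimensional.of_finrank_pos (by rw [hC]; norm_num)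
  obtain ⟨B, _, _, _, _, hB, ⟨e3⟩⟩ := hIND3 K A 6 4 (by norm_num) (by rw [hA]; norm_num) h6
    (by norm_num) (gcdAux (by decide)) (by norm_num)
  have : FiniteDimensional K B := FiniteDimensional.of_finrank_pos (by rw [hB]; norm_num)
  change (A ⊗[K] A) ≃ₐ[K] Matrix (Fin 12) (Fin 12) C at e2
  change ((A ⊗[K] A) ⊗[K] A) ≃ₐ[K] Matrix (Fin 54) (Fin 54) B at e3
  obtain ⟨_, _⟩ := hTCS K C A
  obtain ⟨s, D, _, _, hs, _, _, hsD, ⟨f1⟩⟩ := hWA K B
  obtain ⟨r, D', _, _, hr, _, _, hrD, ⟨f2⟩⟩ := hWA K (C ⊗[K] A)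
  obtain ⟨f3⟩ := hTM2 K C A 12
  obtain ⟨f4⟩ := hMMM K D' 12 r
  obtain ⟨f5⟩ := hMMM K D 54 s
  have g1 : Matrix (Fin (12 * r)) (Fin (12 * r)) D' ≃ₐ[K] Matrix (Fin (54 * s)) (Fin (54 * s)) D :=
    f4.symm.trans <| f2.mapMatrix.symm.trans <| f3.symm.trans <|
      (Algebra.TensorProduct.congr e2.symm AlgEquiv.refl).trans <| e3.trans <|
      f1.mapMatrix.trans f5
  obtain ⟨h12, ⟨g2⟩⟩ := hUNI K D' D (12 * r) (54 * s) (by omega) (by omega) ⟨g1⟩
  obtain ⟨k, hk⟩ : ∃ k, s = 2 * k := ⟨s / 2, by omega⟩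
  have hrk : r = 9 * k := by omega
  have hk0 : 0 < k := by omega
  obtain ⟨_, _⟩ := hMCS K D k hk0
  obtain ⟨f6⟩ := hMMM K D 9 k
  have hdim : finrank K (Matrix (Fin k) (Fin k) D) = 4 := by
    rw [Module.finrank_matrix, Fintype.card_fin]
    rw [hB, hk] at hsD
    nlinarith [hsD]
  have g3 : (C ⊗[K] A) ≃ₐ[K] Matrix (Fin 9) (Fin 9) (Matrix (Fin k) (Fin k) D) := by
    subst hrk
    exact f2.trans (g2.mapMatrix.trans f6.symm)
  obtain ⟨_, _, hCo, ⟨f7⟩⟩ := hOPP K C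
  rw [hC] at f7
  change (Cᵐᵒᵖ ⊗[K] C) ≃ₐ[K] Matrix (Fin 9) (Fin 9) K at f7
  have : FiniteDimensional K Cᵐᵒᵖ := FiniteDimensional.of_finrank_pos (by rw [hCo, hC]; norm_num)
  obtain ⟨f8⟩ := hTM2 K K A 9
  obtain ⟨f9⟩ := hTM1 K Cᵐᵒᵖ (Matrix (Fin k) (Fin k) D) 9
  have g4 : (Cᵐᵒᵖ ⊗[K] (C ⊗[K] A)) ≃ₐ[K] Matrix (Fin 9) (Fin 9) A :=
    (Algebra.TensorProduct.assoc K K K Cᵐᵒᵖ C A).symm.trans <|
      (Algebra.TensorProduct.congr f7 AlgEquiv.refl).trans <| f8.trans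
        (Algebra.TensorProduct.lid K A).mapMatrix
  have g5 : (Cᵐᵒᵖ ⊗[K] (C ⊗[K] A)) ≃ₐ[K]
      Matrix (Fin 9) (Fin 9) (Cᵐᵒᵖ ⊗[K] Matrix (Fin k) (Fin k) D) :=
    (Algebra.TensorProduct.congr AlgEquiv.refl g3).trans f9
  obtain ⟨_, _⟩ := hTCS K Cᵐᵒᵖ (Matrix (Fin k) (Fin k) D)
  obtain ⟨g6⟩ := hCAN K A (Cᵐᵒᵖ ⊗[K] Matrix (Fin k) (Fin k) D) 9 (by norm_num)
    ⟨g4.symm.trans g5⟩
  exact ⟨Matrix (Fin k) (Fin k) D, Cᵐᵒᵖ, inferInstance, inferInstance, inferInstance,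
    inferInstance, inferInstance, inferInstance, inferInstance, inferInstance, hdim,
    by rw [hCo, hC]; norm_num, ⟨g6.trans (Algebra.TensorProduct.comm K _ _)⟩⟩

/-- descent of a tensor product along two bases -/
theorem descTensor (hDESC : ST_DESC.{u}) (hTCS : ST_TCS.{u}) {F K A B : Type u} [Field F] [Field K]
    [Algebra F K] [Ring A] [Algebra K A] [Algebra.IsCentral K A] [IsSimpleRing A]
    [FiniteDimensional K A] [Ring B] [Algebra K B] [Algebra.IsCentral K B] [IsSimpleRing B]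
    [FiniteDimensional K B] (L : IntermediateField F K) (ι κ : Type) [Fintype ι] [Fintype κ]
    [Nonempty ι] [Nonempty κ] (e : ι → A) (f : κ → B) (he : LinearIndependent K e)
    (hf : LinearIndependent K f) (hA : Fintype.card ι = finrank K A)
    (hB : Fintype.card κ = finrank K B)
    (h1A : (1 : A) ∈ Submodule.span L (Set.range e)) (h1B : (1 : B) ∈ Submodule.span L (Set.range f))
    (hmA : ∀ s t, e s * e t ∈ Submodule.span L (Set.range e))
    (hmB : ∀ s t, f s * f t ∈ Submodule.span L (Set.range f)) :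
    ∃ (B' : Type u) (_ : Ring B') (_ : Algebra L B'), Algebra.IsCentral L B' ∧ IsSimpleRing B' ∧
      finrank L B' = finrank K A * finrank K B ∧ Nonempty ((K ⊗[L] B') ≃ₐ[K] (A ⊗[K] B)) := by
  have hcs := hTCS K A B
  have := hcs.1
  have := hcs.2
  let b4 := basisOfLinearIndependentOfCardEqFinrank he hA
  let b3 := basisOfLinearIndependentOfCardEqFinrank hf hB
  have hb4 : ∀ s, b4 s = e s := fun s => by
    simp [b4]
  have hb3 : ∀ s, b3 s = f s := fun s => by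
    simp [b3]
  let g := b4.tensorProduct b3
  have he : (g : _ → A ⊗[K] B) = fun s =>
      (Algebra.TensorProduct.includeLeft : A →ₐ[K] A ⊗[K] B) (e s.1) *
      (Algebra.TensorProduct.includeRight : B →ₐ[K] A ⊗[K] B) (f s.2) := by
    funext s
    obtain ⟨s1, s2⟩ := s
    rw [Basis.tensorProduct_apply, hb4, hb3]
    simp
  have key := fun (x : A) (y : B) => memSpanMul L
    (Algebra.TensorProduct.includeLeft : A →ₐ[K] A ⊗[K] B)
    (Algebra.TensorProduct.includeRight : B →ₐ[K] A ⊗[K] B) e f x y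
  obtain ⟨B', iB1, iB2, hB1, hB2, hB3, hB4⟩ := hDESC F K (A ⊗[K] B) L _ g (by
    rw [he]
    have := key 1 1 h1A h1B
    rw [map_one, map_one, one_mul] at this
    exact this) (by
    intro s t
    rw [he]
    have h5 := key _ _ (hmA s.1 t.1) (hmB s.2 t.2)
    have h6 : (Algebra.TensorProduct.includeLeft : A →ₐ[K] A ⊗[K] B) (e s.1) *
      (Algebra.TensorProduct.includeRight : B →ₐ[K] A ⊗[K] B) (f s.2) *
      ((Algebra.TensorProduct.includeLeft : A →ₐ[K] A ⊗[K] B) (e t.1) *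
      (Algebra.TensorProduct.includeRight : B →ₐ[K] A ⊗[K] B) (f t.2)) =
      (Algebra.TensorProduct.includeLeft : A →ₐ[K] A ⊗[K] B) (e s.1 * e t.1) *
      (Algebra.TensorProduct.includeRight : B →ₐ[K] A ⊗[K] B) (f s.2 * f t.2) := by
      simp
    rw [← h6] at h5
    exact h5)
  refine ⟨B', iB1, iB2, hB1, hB2, ?_, hB4⟩
  rw [hB3, Fintype.card_prod, hA, hB]

end Pool.Agent.Helper75.PX
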