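import Pool.Agent.Helper75.PX.Defs

set_option autoImplicit false

universe u

open Module TensorProduct

namespace Pool.Agent.Helper75.PX

/-! ### general facts -/

/-- simple tensor central simple is simple -/
def ST_SIMP : Prop := ∀ (K C A : Type u) [Field K] [Ring C] [Algebra K C] [Ring A] [Algebra K A]
  [IsSimpleRing C] [Algebra.IsCentral K A] [IsSimpleRing A], IsSimpleRing (C ⊗[K] A)

/-- the minimal polynomial has degree at most the degree of the algebra -/
def ST_MPD : Prop := ∀ (K A : Type u) [Field K] [Ring A] [Algebra K A] [Algebra.IsCentral K A]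
  [IsSimpleRing A] (n : ℕ), 0 < n → finrank K A = n ^ 2 → ∀ x : A, (minpoly K x).natDegree ≤ n

/-- in a division algebra the degree of an element divides the dimension -/
def ST_MDV : Prop := ∀ (K D : Type u) [Field K] [DivisionRing D] [Algebra K D]
  [FiniteDimensional K D] (x : D), (minpoly K x).natDegree ∣ finrank K D

/-- two traces vanish -/
def ST_TRZ : Prop := ∀ (K D : Type u) [Field K] [DivisionRing D] [Algebra K D]
  [FiniteDimensional K D] (x : D), 1 < (minpoly K x).natDegree →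
  (minpoly K x).natDegree < finrank K D →
  ∃ v : D, v ≠ 0 ∧ trL K v = 0 ∧ trL K v⁻¹ = 0

/-- the trace and the minimal polynomial -/
def ST_TRM : Prop := ∀ (K D : Type u) [Field K] [DivisionRing D] [Algebra K D]
  [FiniteDimensional K D] (x : D), ((finrank K D : ℕ) : K) ≠ 0 → trL K x = 0 →
  (minpoly K x).coeff ((minpoly K x).natDegree - 1) = 0

/-- minimal polynomial of the inverse -/
def ST_MIN : Prop := ∀ (K D : Type u) [Field K] [DivisionRing D] [Algebra K D]
  [FiniteDimensional K D] (x : D), x ≠ 0 →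
  (minpoly K x⁻¹).natDegree = (minpoly K x).natDegree ∧
  ((minpoly K x⁻¹).coeff ((minpoly K x).natDegree - 1) = 0 → (minpoly K x).coeff 1 = 0)

/-- an algebra of finite dimension that is central simple is a matrix algebra over a central
division algebra -/
def ST_WA : Prop := ∀ (K A : Type u) [Field K] [Ring A] [Algebra K A] [Algebra.IsCentral K A]
  [IsSimpleRing A] [FiniteDimensional K A],
  ∃ (n : ℕ) (D : Type u) (_ : DivisionRing D) (_ : Algebra K D), 0 < n ∧
    FiniteDimensional K D ∧ Algebra.IsCentral K D ∧ finrank K A = n ^ 2 * finrank K D ∧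
    Nonempty (A ≃ₐ[K] Matrix (Fin n) (Fin n) D)

/-! ### degree four -/

/-- a quadratic element -/
def ST_A4 : Prop := ∀ (K D : Type u) [Field K] [DivisionRing D] [Algebra K D]
  [Algebra.IsCentral K D], finrank K D = 16 → (2 : K) ≠ 0 →
  ∃ (α : D) (a : K), α * α = algebraMap K D a ∧ ∀ k : K, α ≠ algebraMap K D k

/-- an element that anticommutes with `α` and whose square is not central -/
def ST_G1 : Prop := ∀ (K D : Type u) [Field K] [DivisionRing D] [Algebra K D]
  [Algebra.IsCentral K D], finrank K D = 16 → (2 : K) ≠ 0 → ∀ (α : D) (a : K),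
  α * α = algebraMap K D a → (∀ k : K, α ≠ algebraMap K D k) →
  ∃ z : D, z ≠ 0 ∧ z * α = -(α * z) ∧ ∀ k : K, z * z ≠ algebraMap K D k

/-- the second quadratic element -/
def ST_G4 : Prop := ∀ (K D : Type u) [Field K] [DivisionRing D] [Algebra K D]
  [Algebra.IsCentral K D], finrank K D = 16 → (2 : K) ≠ 0 → ∀ (α z : D) (a : K),
  α * α = algebraMap K D a → z ≠ 0 → α ≠ 0 → z * α = -(α * z) →
  (∀ k : K, z * z ≠ algebraMap K D k) →
  ∃ (β : D) (b p : K), β * β = algebraMap K D b ∧ (∀ k : K, β ≠ algebraMap K D k) ∧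
    α * β = β * α ∧ z * β = β * z ∧ z * z = algebraMap K D p + β

/-- the centralizer of `α` and `β` -/
def ST_CE : Prop := ∀ (K D : Type u) [Field K] [DivisionRing D] [Algebra K D]
  [Algebra.IsCentral K D], finrank K D = 16 → (2 : K) ≠ 0 → ∀ (α β z w : D) (a b : K),
  α * α = algebraMap K D a → β * β = algebraMap K D b → α * β = β * α → z ≠ 0 → w ≠ 0 →
  α ≠ 0 → β ≠ 0 → z * α = -(α * z) → z * β = β * z → w * α = α * w → w * β = -(β * w) →
  ∀ x : D, x * α = α * x → x * β = β * x → ∃ v : Fin 4 → K, x = uE α β v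

/-- the fourth generator -/
def ST_W4 : Prop := ∀ (K D : Type u) [Field K] [DivisionRing D] [Algebra K D]
  [Algebra.IsCentral K D], finrank K D = 16 → (2 : K) ≠ 0 → ∀ (α β z : D) (a b : K),
  α * α = algebraMap K D a → β * β = algebraMap K D b → (∀ k : K, β ≠ algebraMap K D k) →
  α * β = β * α → z ≠ 0 → α ≠ 0 → z * α = -(α * z) → z * β = β * z →
  ∃ w : D, w ≠ 0 ∧ w * α = α * w ∧ w * β = -(β * w)

/-- all generators, division case -/
def ST_E4 : Prop := ∀ (K D : Type u) [Field K] [DivisionRing D] [Algebra K D]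
  [Algebra.IsCentral K D], finrank K D = 16 → (2 : K) ≠ 0 →
  ∃ (α β z w : D) (a b p r : K) (v : Fin 4 → K), D4 α β z w a b p r v

/-- quaternion algebras -/
def ST_Q4 : Prop := ∀ (K Q : Type u) [Field K] [Ring Q] [Algebra K Q] [Algebra.IsCentral K Q]
  [IsSimpleRing Q], finrank K Q = 4 → (2 : K) ≠ 0 →
  ∃ (i j : Q) (x y : K), i * i = algebraMap K Q x ∧ j * j = algebraMap K Q y ∧
    i * j = -(j * i) ∧ x ≠ 0 ∧ y ≠ 0

/-- two by two matrices over a quaternion algebra -/
def ST_M4 : Prop := ∀ (K Q : Type u) [Field K] [Ring Q] [Algebra K Q], (2 : K) ≠ 0 → (3 : K) ≠ 0 →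
  ∀ (i j : Q) (x y : K), i * i = algebraMap K Q x → j * j = algebraMap K Q y →
    i * j = -(j * i) → x ≠ 0 → y ≠ 0 →
  ∃ (α β z w : Matrix (Fin 2) (Fin 2) Q) (a b p r : K) (v : Fin 4 → K), D4 α β z w a b p r v

/-- every central simple algebra of degree four has the generators -/
def ST_C4 : Prop := ∀ (K A : Type u) [Field K] [Ring A] [Algebra K A] [Algebra.IsCentral K A]
  [IsSimpleRing A], finrank K A = 16 → (2 : K) ≠ 0 → (3 : K) ≠ 0 →
  ∃ (α β z w : A) (a b p r : K) (v : Fin 4 → K), D4 α β z w a b p r v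

/-! ### degree three -/

/-- a cubic element, division case -/
def ST_I3 : Prop := ∀ (K D : Type u) [Field K] [DivisionRing D] [Algebra K D]
  [Algebra.IsCentral K D], finrank K D = 9 → (3 : K) ≠ 0 →
  ∃ (i : D) (c : K), i * i * i = algebraMap K D c ∧ ∀ k : K, i ≠ algebraMap K D k

/-- generators, division case -/
def ST_J3 : Prop := ∀ (K D : Type u) [Field K] [DivisionRing D] [Algebra K D]
  [Algebra.IsCentral K D] (ζ : K), finrank K D = 9 → (3 : K) ≠ 0 → ζ ^ 2 + ζ + 1 = 0 →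
  ∀ (i : D) (c : K), i * i * i = algebraMap K D c → (∀ k : K, i ≠ algebraMap K D k) →
  ∃ (j : D) (d : K), D3 ζ i j c d

/-- every central simple algebra of degree three is a symbol algebra -/
def ST_C3 : Prop := ∀ (K A : Type u) [Field K] [Ring A] [Algebra K A] [Algebra.IsCentral K A]
  [IsSimpleRing A] (ζ : K), finrank K A = 9 → (3 : K) ≠ 0 → ζ ^ 2 + ζ + 1 = 0 →
  ∃ (i j : A) (c d : K), D3 ζ i j c d

/-! ### bases, scaling, relations -/

/-- `1, α, β, αβ` are independent -/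
def ST_I4 : Prop := ∀ (K A : Type u) [Field K] [Ring A] [Algebra K A] [Nontrivial A]
  (α β z w : A) (a b p r : K) (v : Fin 4 → K), (2 : K) ≠ 0 → D4 α β z w a b p r v →
  ∀ t : Fin 4 → K, uE α β t = 0 → t = 0

/-- the sixteen monomials are independent -/
def ST_B4 : Prop := ∀ (K A : Type u) [Field K] [Ring A] [Algebra K A] [Nontrivial A]
  (α β z w : A) (a b p r : K) (v : Fin 4 → K), (2 : K) ≠ 0 → D4 α β z w a b p r v →
  LinearIndependent K (e4 α β z w)

/-- the nine monomials are independent -/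
def ST_B3 : Prop := ∀ (K A : Type u) [Field K] [Ring A] [Algebra K A] [Nontrivial A]
  (ζ : K) (i j : A) (c d : K), (3 : K) ≠ 0 → ζ ^ 2 + ζ + 1 = 0 → D3 ζ i j c d →
  LinearIndependent K (e3 i j)

/-- the relations -/
def ST_REL : Prop := ∀ (K A : Type u) [Field K] [Ring A] [Algebra K A] [Nontrivial A]
  (α β z w : A) (a b p r : K) (v : Fin 4 → K), (2 : K) ≠ 0 → D4 α β z w a b p r v →
  Rel a b p r v

/-- the norms are not zero -/
def ST_NZ : Prop := ∀ (K A : Type u) [Field K] [Ring A] [Algebra K A] [Nontrivial A]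
  (α β z w : A) (a b p r : K) (v : Fin 4 → K), (2 : K) ≠ 0 → D4 α β z w a b p r v →
  p ^ 2 - b ≠ 0 ∧ r ^ 2 - a ≠ 0

/-- scaling in degree four -/
def ST_SC4 : Prop := ∀ (K A : Type u) [Field K] [Ring A] [Algebra K A]
  (α β z w : A) (a b p r : K) (v : Fin 4 → K) (l m : K), l ≠ 0 → m ≠ 0 → D4 α β z w a b p r v →
  D4 (m ^ 2 • α) (l ^ 2 • β) (l • z) (m • w) (m ^ 4 * a) (l ^ 4 * b) (l ^ 2 * p) (m ^ 2 * r)
    ![v 0, v 1 / m ^ 2, v 2 / l ^ 2, v 3 / (l ^ 2 * m ^ 2)]

/-- scaling in degree three -/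
def ST_SC3 : Prop := ∀ (K A : Type u) [Field K] [Ring A] [Algebra K A] (ζ : K) (i j : A)
  (c d f g : K), f ≠ 0 → g ≠ 0 → D3 ζ i j c d → D3 ζ (f • i) (g • j) (c * f ^ 3) (d * g ^ 3)

/-- **transcendence degree at most five** -/
def ST_T5 : Prop := ∀ (F K : Type u) [Field F] [Field K] [Algebra F K] (a b p r : K)
  (v : Fin 4 → K), (2 : K) ≠ 0 → a ≠ 0 → b ≠ 0 → p ^ 2 - b ≠ 0 → r ^ 2 - a ≠ 0 →
  Rel a b p r v →
  Algebra.trdeg F (IntermediateField.adjoin F (({a, b, p, r} : Set K) ∪ Set.range v)) ≤ 5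

/-! ### descent -/

/-- products of the sixteen monomials -/
def ST_CL4 : Prop := ∀ (F K A : Type u) [Field F] [Field K] [Algebra F K] [Ring A] [Algebra K A]
  (L : IntermediateField F K) (α β z w : A) (a b p r : K) (v : Fin 4 → K),
  D4 α β z w a b p r v → a ∈ L → b ∈ L → p ∈ L → r ∈ L → (∀ k, v k ∈ L) →
  ∀ s t, e4 α β z w s * e4 α β z w t ∈ Submodule.span L (Set.range (e4 α β z w))

/-- products of the nine monomials -/
def ST_CL3 : Prop := ∀ (F K A : Type u) [Field F] [Field K] [Algebra F K] [Ring A] [Algebra K A]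
  (L : IntermediateField F K) (ζ : K) (i j : A) (c d : K),
  D3 ζ i j c d → ζ ∈ L → ζ ^ 2 + ζ + 1 = 0 → c ∈ L → d ∈ L →
  ∀ s t, e3 i j s * e3 i j t ∈ Submodule.span L (Set.range (e3 i j))

/-- descent along a basis -/
def ST_DESC : Prop := ∀ (F K A : Type u) [Field F] [Field K] [Algebra F K] [Ring A] [Algebra K A]
  [Algebra.IsCentral K A] [IsSimpleRing A] (L : IntermediateField F K) (ι : Type) [Fintype ι]
  (e : Basis ι K A), (1 : A) ∈ Submodule.span L (Set.range e) →
  (∀ s t, e s * e t ∈ Submodule.span L (Set.range e)) →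
  ∃ (B : Type u) (_ : Ring B) (_ : Algebra L B), Algebra.IsCentral L B ∧ IsSimpleRing B ∧
    finrank L B = Fintype.card ι ∧ Nonempty ((K ⊗[L] B) ≃ₐ[K] A)

/-- the tensor product is central simple -/
def ST_TCS : Prop := ∀ (K A B : Type u) [Field K] [Ring A] [Algebra K A] [Ring B] [Algebra K B]
  [Algebra.IsCentral K A] [IsSimpleRing A] [Algebra.IsCentral K B] [IsSimpleRing B]
  [FiniteDimensional K A] [FiniteDimensional K B],
  Algebra.IsCentral K (A ⊗[K] B) ∧ IsSimpleRing (A ⊗[K] B)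

/-- main theorem -/
def ST_MAIN : Prop := ∀ (F K A₄ A₃ : Type u) [Field F] [Field K] [Algebra F K]
  [Ring A₄] [Algebra K A₄] [Algebra.IsCentral K A₄] [IsSimpleRing A₄]
  [Ring A₃] [Algebra K A₃] [Algebra.IsCentral K A₃] [IsSimpleRing A₃],
  (2 : F) ≠ 0 → (3 : F) ≠ 0 → (∃ ζ : F, ζ ^ 2 + ζ + 1 = 0) →
  finrank K A₄ = 16 → finrank K A₃ = 9 →
  ∃ (L : IntermediateField F K) (B : Type u) (_ : Ring B) (_ : Algebra L B),
    Algebra.trdeg F L ≤ 5 ∧ Algebra.IsCentral L B ∧ IsSimpleRing B ∧ finrank L B = 144 ∧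
    Nonempty ((K ⊗[L] B) ≃ₐ[K] (A₄ ⊗[K] A₃))

end Pool.Agent.Helper75.PX
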