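import Pool.Agent.Helper75.PX.Stmts

set_option autoImplicit false

universe u

open Module TensorProduct
open scoped Kronecker

namespace Pool.Agent.Helper75.PX

/-- matrix of a map; `Pm f * Pm g = Pm (g ∘ f)` -/
def Pm (Ω : Type*) [Zero Ω] [One Ω] {ι : Type*} [DecidableEq ι] (f : ι → ι) : Matrix ι ι Ω :=
  Matrix.of fun p q => if f p = q then 1 else 0

/-- the flip of a pair -/
def fl2 (n : ℕ) : Fin n × Fin n → Fin n × Fin n := fun p => (p.2, p.1)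

/-- the flip of the first two -/
def fl12 (n : ℕ) : (Fin n × Fin n) × Fin n → (Fin n × Fin n) × Fin n :=
  fun p => ((p.1.2, p.1.1), p.2)

/-- the flip of the last two -/
def fl23 (n : ℕ) : (Fin n × Fin n) × Fin n → (Fin n × Fin n) × Fin n :=
  fun p => ((p.1.1, p.2), p.1.2)

/-- antisymmetrizer on two factors -/
def E2 (Ω : Type*) [Field Ω] (n : ℕ) : Matrix (Fin n × Fin n) (Fin n × Fin n) Ω :=
  1 - Pm Ω (fl2 n)

/-- antisymmetrizer on three factors -/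
def E3 (Ω : Type*) [Field Ω] (n : ℕ) :
    Matrix ((Fin n × Fin n) × Fin n) ((Fin n × Fin n) × Fin n) Ω :=
  1 - Pm Ω (fl12 n) - Pm Ω (fl23 n) + Pm Ω (fl12 n) * Pm Ω (fl23 n) +
    Pm Ω (fl23 n) * Pm Ω (fl12 n) - Pm Ω (fl12 n) * Pm Ω (fl23 n) * Pm Ω (fl12 n)

/-- splitting over the algebraic closure -/
def ST_EMB : Prop := ∀ (K A : Type u) [Field K] [Ring A] [Algebra K A] [Algebra.IsCentral K A]
  [IsSimpleRing A] (n : ℕ), 0 < n → finrank K A = n ^ 2 →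
  ∃ Ψ : A →ₐ[K] Matrix (Fin n) (Fin n) (AlgebraicClosure K),
    Submodule.span (AlgebraicClosure K) (Set.range Ψ) = ⊤

/-- Kronecker product of two split representations -/
def ST_KRO : Prop := ∀ (K A B Ω : Type u) [Field K] [Ring A] [Algebra K A] [Ring B] [Algebra K B]
  [Field Ω] [Algebra K Ω] (ι κ : Type) [Fintype ι] [DecidableEq ι] [Fintype κ] [DecidableEq κ]
  (Ψ : A →ₐ[K] Matrix ι ι Ω) (Φ : B →ₐ[K] Matrix κ κ Ω),
  Submodule.span Ω (Set.range Ψ) = ⊤ → Submodule.span Ω (Set.range Φ) = ⊤ →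
  ∃ Θ : A ⊗[K] B →ₐ[K] Matrix (ι × κ) (ι × κ) Ω, Submodule.span Ω (Set.range Θ) = ⊤ ∧
    ∀ (a : A) (b : B), Θ (a ⊗ₜ[K] b) = Ψ a ⊗ₖ Φ b

/-- the element of `A ⊗ A` that maps to the flip -/
def ST_GOL : Prop := ∀ (K A Ω : Type u) [Field K] [Ring A] [Algebra K A] [Field Ω] [Algebra K Ω]
  (n : ℕ) (Ψ : A →ₐ[K] Matrix (Fin n) (Fin n) Ω),
  Submodule.span Ω (Set.range Ψ) = ⊤ → 0 < n → finrank K A = n ^ 2 → (n : K) ≠ 0 →
  ∃ (m : ℕ) (x y : Fin m → A), ∑ i, Ψ (x i) ⊗ₖ Ψ (y i) = Pm Ω (fl2 n)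

/-- rank of the antisymmetrizer, two factors -/
def ST_RK2 : Prop := ∀ (Ω : Type u) [Field Ω] (n : ℕ), (E2 Ω n).rank = n.choose 2

/-- rank of the antisymmetrizer, three factors -/
def ST_RK3 : Prop := ∀ (Ω : Type u) [Field Ω] (n : ℕ), (E3 Ω n).rank = n.choose 3

/-- dimension of a left ideal through a split representation -/
def ST_DIM : Prop := ∀ (K X Ω : Type u) [Field K] [Ring X] [Algebra K X] [Field Ω] [Algebra K Ω]
  (ι : Type) [Fintype ι] [DecidableEq ι] (Ψ : X →ₐ[K] Matrix ι ι Ω),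
  Submodule.span Ω (Set.range Ψ) = ⊤ → 0 < Fintype.card ι →
  finrank K X = Fintype.card ι ^ 2 → ∀ e : X,
  finrank K (LinearMap.range (LinearMap.mulRight K e)) = Fintype.card ι * (Ψ e).rank

/-- dimension of a left ideal of a matrix algebra over a division ring -/
def ST_MCR : Prop := ∀ (K D : Type u) [Field K] [DivisionRing D] [Algebra K D]
  [FiniteDimensional K D] (r : ℕ) (e : Matrix (Fin r) (Fin r) D),
  r * finrank K D ∣ finrank K (LinearMap.range (LinearMap.mulRight K e))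

/-- matrices of matrices -/
def ST_MMM : Prop := ∀ (K X : Type u) [Field K] [Ring X] [Algebra K X] (a b : ℕ),
  Nonempty (Matrix (Fin a) (Fin a) (Matrix (Fin b) (Fin b) X) ≃ₐ[K]
    Matrix (Fin (a * b)) (Fin (a * b)) X)

/-- matrices over a central simple algebra -/
def ST_MCS : Prop := ∀ (K X : Type u) [Field K] [Ring X] [Algebra K X] [Algebra.IsCentral K X]
  [IsSimpleRing X] (m : ℕ), 0 < m →
  Algebra.IsCentral K (Matrix (Fin m) (Fin m) X) ∧ IsSimpleRing (Matrix (Fin m) (Fin m) X)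

/-- index from a rank -/
def ST_INDG : Prop := ∀ (K X : Type u) [Field K] [Ring X] [Algebra K X] [Algebra.IsCentral K X]
  [IsSimpleRing X] (ι : Type) [Fintype ι] [DecidableEq ι]
  (Ψ : X →ₐ[K] Matrix ι ι (AlgebraicClosure K)),
  Submodule.span (AlgebraicClosure K) (Set.range Ψ) = ⊤ → 0 < Fintype.card ι →
  finrank K X = Fintype.card ι ^ 2 → ∀ (e : X) (m : ℕ), 0 < m →
  (∀ δ : ℕ, δ ∣ Fintype.card ι → δ ∣ (Ψ e).rank → δ ∣ m) → m ∣ Fintype.card ι →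
  ∃ (B : Type u) (_ : Ring B) (_ : Algebra K B), Algebra.IsCentral K B ∧ IsSimpleRing B ∧
    finrank K B = m ^ 2 ∧
    Nonempty (X ≃ₐ[K] Matrix (Fin (Fintype.card ι / m)) (Fin (Fintype.card ι / m)) B)

/-- index of the square -/
def ST_IND2 : Prop := ∀ (K A : Type u) [Field K] [Ring A] [Algebra K A] [Algebra.IsCentral K A]
  [IsSimpleRing A] (n m : ℕ), 0 < n → finrank K A = n ^ 2 → (n : K) ≠ 0 → 0 < m →
  (∀ δ : ℕ, δ ∣ n * n → δ ∣ n.choose 2 → δ ∣ m) → m ∣ n * n →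
  ∃ (B : Type u) (_ : Ring B) (_ : Algebra K B), Algebra.IsCentral K B ∧ IsSimpleRing B ∧
    finrank K B = m ^ 2 ∧
    Nonempty ((A ⊗[K] A) ≃ₐ[K] Matrix (Fin (n * n / m)) (Fin (n * n / m)) B)

/-- index of the cube -/
def ST_IND3 : Prop := ∀ (K A : Type u) [Field K] [Ring A] [Algebra K A] [Algebra.IsCentral K A]
  [IsSimpleRing A] (n m : ℕ), 0 < n → finrank K A = n ^ 2 → (n : K) ≠ 0 → 0 < m →
  (∀ δ : ℕ, δ ∣ n * n * n → δ ∣ n.choose 3 → δ ∣ m) → m ∣ n * n * n →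
  ∃ (B : Type u) (_ : Ring B) (_ : Algebra K B), Algebra.IsCentral K B ∧ IsSimpleRing B ∧
    finrank K B = m ^ 2 ∧
    Nonempty (((A ⊗[K] A) ⊗[K] A) ≃ₐ[K]
      Matrix (Fin (n * n * n / m)) (Fin (n * n * n / m)) B)

/-- tensor product with a matrix algebra on the right -/
def ST_TM1 : Prop := ∀ (K A B : Type u) [Field K] [Ring A] [Algebra K A] [Ring B] [Algebra K B]
  (m : ℕ), Nonempty ((A ⊗[K] Matrix (Fin m) (Fin m) B) ≃ₐ[K]
    Matrix (Fin m) (Fin m) (A ⊗[K] B))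

/-- tensor product with a matrix algebra on the left -/
def ST_TM2 : Prop := ∀ (K A B : Type u) [Field K] [Ring A] [Algebra K A] [Ring B] [Algebra K B]
  (m : ℕ), Nonempty ((Matrix (Fin m) (Fin m) A ⊗[K] B) ≃ₐ[K]
    Matrix (Fin m) (Fin m) (A ⊗[K] B))

/-- uniqueness in Wedderburn's theorem -/
def ST_UNI : Prop := ∀ (K D D' : Type u) [Field K] [DivisionRing D] [Algebra K D]
  [DivisionRing D'] [Algebra K D'] [FiniteDimensional K D] [FiniteDimensional K D'] (r s : ℕ),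
  0 < r → 0 < s →
  Nonempty (Matrix (Fin r) (Fin r) D ≃ₐ[K] Matrix (Fin s) (Fin s) D') →
  r = s ∧ Nonempty (D ≃ₐ[K] D')

/-- cancellation -/
def ST_CAN : Prop := ∀ (K X Y : Type u) [Field K] [Ring X] [Algebra K X] [Algebra.IsCentral K X]
  [IsSimpleRing X] [FiniteDimensional K X] [Ring Y] [Algebra K Y] [Algebra.IsCentral K Y]
  [IsSimpleRing Y] [FiniteDimensional K Y] (a : ℕ), 0 < a →
  Nonempty (Matrix (Fin a) (Fin a) X ≃ₐ[K] Matrix (Fin a) (Fin a) Y) → Nonempty (X ≃ₐ[K] Y)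

/-- the opposite algebra -/
def ST_OPP : Prop := ∀ (K B : Type u) [Field K] [Ring B] [Algebra K B] [Algebra.IsCentral K B]
  [IsSimpleRing B] [FiniteDimensional K B],
  Algebra.IsCentral K Bᵐᵒᵖ ∧ IsSimpleRing Bᵐᵒᵖ ∧ finrank K Bᵐᵒᵖ = finrank K B ∧
  Nonempty ((Bᵐᵒᵖ ⊗[K] B) ≃ₐ[K] Matrix (Fin (finrank K B)) (Fin (finrank K B)) K)

/-- primary decomposition in degree twelve -/
def ST_PDA : Prop := ∀ (K A : Type u) [Field K] [Ring A] [Algebra K A] [Algebra.IsCentral K A]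
  [IsSimpleRing A], (2 : K) ≠ 0 → (3 : K) ≠ 0 → finrank K A = 144 →
  ∃ (A₄ A₃ : Type u) (_ : Ring A₄) (_ : Algebra K A₄) (_ : Ring A₃) (_ : Algebra K A₃),
    Algebra.IsCentral K A₄ ∧ IsSimpleRing A₄ ∧ Algebra.IsCentral K A₃ ∧ IsSimpleRing A₃ ∧
    finrank K A₄ = 16 ∧ finrank K A₃ = 9 ∧ Nonempty (A ≃ₐ[K] (A₄ ⊗[K] A₃))

/-- main theorem, every algebra of degree twelve -/
def ST_MAIN2 : Prop := ∀ (F K A : Type u) [Field F] [Field K] [Algebra F K]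
  [Ring A] [Algebra K A] [Algebra.IsCentral K A] [IsSimpleRing A],
  (2 : F) ≠ 0 → (3 : F) ≠ 0 → (∃ ζ : F, ζ ^ 2 + ζ + 1 = 0) → finrank K A = 144 →
  ∃ (L : IntermediateField F K) (B : Type u) (_ : Ring B) (_ : Algebra L B),
    Algebra.trdeg F L ≤ 5 ∧ Algebra.IsCentral L B ∧ IsSimpleRing B ∧ finrank L B = 144 ∧
    Nonempty ((K ⊗[L] B) ≃ₐ[K] A)

end Pool.Agent.Helper75.PX
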