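import Pool.Agent.Helper75.PX.Stmts2

set_option autoImplicit false

universe u

open Module TensorProduct

namespace Pool.Agent.Helper75.PX

/-- generators of a cyclic algebra of degree three, simplest cubic -/
structure D3c {K A : Type*} [Field K] [Ring A] [Algebra K A] (y u : A) (t c : K) : Prop where
  hy : y * y * y = t • (y * y) + (t + 3) • y + 1
  huy : u * y = (y * y - (t + 1) • y - 2) * u
  hu : u * u * u = algebraMap K A c
  c0 : c ≠ 0

/-- the nine monomials -/
def e3c {A : Type*} [Ring A] (y u : A) (s : Fin 3 × Fin 3) : A := y ^ (s.1 : ℕ) * u ^ (s.2 : ℕ)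

/-- generators of a quaternion algebra -/
structure D2 {K A : Type*} [Field K] [Ring A] [Algebra K A] (i j : A) (a b : K) : Prop where
  hi : i * i = algebraMap K A a
  hj : j * j = algebraMap K A b
  hij : i * j = -(j * i)
  a0 : a ≠ 0
  b0 : b ≠ 0

/-- the four monomials -/
def e2q {A : Type*} [Ring A] (i j : A) (s : Fin 2 × Fin 2) : A := i ^ (s.1 : ℕ) * j ^ (s.2 : ℕ)

/-- an element with four vanishing traces -/
def ST_V3 : Prop := ∀ (K D : Type u) [Field K] [DivisionRing D] [Algebra K D]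
  [Algebra.IsCentral K D], finrank K D = 9 → (3 : K) ≠ 0 → ∀ (i : D) (c : K),
  i * i * i = algebraMap K D c → (∀ k : K, i ≠ algebraMap K D k) →
  ∃ v : D, v ≠ 0 ∧ trL K v = 0 ∧ trL K v⁻¹ = 0 ∧ trL K (i * v) = 0 ∧ trL K (i * v)⁻¹ = 0 ∧
    v * i ≠ i * v

/-- commuting with two elements that do not commute -/
def ST_K3 : Prop := ∀ (K D : Type u) [Field K] [DivisionRing D] [Algebra K D]
  [Algebra.IsCentral K D], finrank K D = 9 → ∀ t x u : D, t * x = x * t → t * u = u * t →
  x * u ≠ u * x → ∃ k : K, t = algebraMap K D k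

/-- vanishing traces give a central cube -/
def ST_U3 : Prop := ∀ (K D : Type u) [Field K] [DivisionRing D] [Algebra K D]
  [Algebra.IsCentral K D], finrank K D = 9 → (3 : K) ≠ 0 → ∀ v : D, v ≠ 0 →
  trL K v = 0 → trL K v⁻¹ = 0 → ∃ d : K, d ≠ 0 ∧ v * v * v = algebraMap K D d

/-- an element that commutes with its conjugate -/
def ST_X3 : Prop := ∀ (K D : Type u) [Field K] [DivisionRing D] [Algebra K D]
  [Algebra.IsCentral K D], finrank K D = 9 → (3 : K) ≠ 0 → (∀ ζ : K, ζ ^ 2 + ζ + 1 ≠ 0) →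
  ∃ (u x : D) (c : K), c ≠ 0 ∧ u * u * u = algebraMap K D c ∧
    x * (u * x * u⁻¹) = (u * x * u⁻¹) * x ∧ u * x ≠ x * u

/-- the simplest cubic -/
def ST_Y3 : Prop := ∀ (K D : Type u) [Field K] [DivisionRing D] [Algebra K D]
  [Algebra.IsCentral K D], finrank K D = 9 → ∀ (u x : D) (c : K), c ≠ 0 →
  u * u * u = algebraMap K D c → x * (u * x * u⁻¹) = (u * x * u⁻¹) * x → u * x ≠ x * u →
  ∃ (y : D) (t : K), D3c y u t c

/-- degree three without cube roots of unity -/
def ST_C3c : Prop := ∀ (K A : Type u) [Field K] [Ring A] [Algebra K A] [Algebra.IsCentral K A]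
  [IsSimpleRing A], finrank K A = 9 → (2 : K) ≠ 0 → (3 : K) ≠ 0 →
  (∀ ζ : K, ζ ^ 2 + ζ + 1 ≠ 0) → ∃ (y u : A) (t c : K), D3c y u t c

/-- the nine monomials are independent -/
def ST_B3c : Prop := ∀ (K A : Type u) [Field K] [Ring A] [Algebra K A] [Nontrivial A]
  (y u : A) (t c : K), (3 : K) ≠ 0 → (∀ ζ : K, ζ ^ 2 + ζ + 1 ≠ 0) → D3c y u t c →
  LinearIndependent K (e3c y u)

/-- scaling -/
def ST_SC3c : Prop := ∀ (K A : Type u) [Field K] [Ring A] [Algebra K A] (y u : A)
  (t c g : K), g ≠ 0 → D3c y u t c → D3c y (g • u) t (c * g ^ 3)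

/-- products of the nine monomials -/
def ST_CL3c : Prop := ∀ (F K A : Type u) [Field F] [Field K] [Algebra F K] [Ring A] [Algebra K A]
  (L : IntermediateField F K) (y u : A) (t c : K), D3c y u t c → t ∈ L → c ∈ L →
  ∀ s s', e3c y u s * e3c y u s' ∈ Submodule.span L (Set.range (e3c y u))

/-- one more generator -/
def ST_T6 : Prop := ∀ (F K : Type u) [Field F] [Field K] [Algebra F K] (S : Set K) (s : K)
  (n : ℕ), Algebra.trdeg F (IntermediateField.adjoin F S) ≤ (n : Cardinal) →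
  Algebra.trdeg F (IntermediateField.adjoin F (S ∪ {s})) ≤ ((n + 1 : ℕ) : Cardinal)

/-- the four monomials are independent -/
def ST_B2 : Prop := ∀ (K A : Type u) [Field K] [Ring A] [Algebra K A] [Nontrivial A]
  (i j : A) (a b : K), (2 : K) ≠ 0 → D2 i j a b → LinearIndependent K (e2q i j)

/-- scaling of quaternions -/
def ST_SC2 : Prop := ∀ (K A : Type u) [Field K] [Ring A] [Algebra K A] (i j : A)
  (a b f g : K), f ≠ 0 → g ≠ 0 → D2 i j a b → D2 (f • i) (g • j) (a * f ^ 2) (b * g ^ 2)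

/-- products of the four monomials -/
def ST_CL2 : Prop := ∀ (F K A : Type u) [Field F] [Field K] [Algebra F K] [Ring A] [Algebra K A]
  (L : IntermediateField F K) (i j : A) (a b : K), D2 i j a b → a ∈ L → b ∈ L →
  ∀ s s', e2q i j s * e2q i j s' ∈ Submodule.span L (Set.range (e2q i j))

/-- primary decomposition in degree six -/
def ST_PD6 : Prop := ∀ (K A : Type u) [Field K] [Ring A] [Algebra K A] [Algebra.IsCentral K A]
  [IsSimpleRing A], (2 : K) ≠ 0 → (3 : K) ≠ 0 → finrank K A = 36 →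
  ∃ (A₂ A₃ : Type u) (_ : Ring A₂) (_ : Algebra K A₂) (_ : Ring A₃) (_ : Algebra K A₃),
    Algebra.IsCentral K A₂ ∧ IsSimpleRing A₂ ∧ Algebra.IsCentral K A₃ ∧ IsSimpleRing A₃ ∧
    finrank K A₂ = 4 ∧ finrank K A₃ = 9 ∧ Nonempty (A ≃ₐ[K] (A₂ ⊗[K] A₃))

/-- degree twelve over every field of characteristic not two or three -/
def ST_M12 : Prop := ∀ (F K A : Type u) [Field F] [Field K] [Algebra F K]
  [Ring A] [Algebra K A] [Algebra.IsCentral K A] [IsSimpleRing A],
  (2 : F) ≠ 0 → (3 : F) ≠ 0 → finrank K A = 144 →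
  ∃ (L : IntermediateField F K) (B : Type u) (_ : Ring B) (_ : Algebra L B),
    Algebra.trdeg F L ≤ 6 ∧ Algebra.IsCentral L B ∧ IsSimpleRing B ∧ finrank L B = 144 ∧
    Nonempty ((K ⊗[L] B) ≃ₐ[K] A)

/-- degree six over every field of characteristic not two or three -/
def ST_M6 : Prop := ∀ (F K A : Type u) [Field F] [Field K] [Algebra F K]
  [Ring A] [Algebra K A] [Algebra.IsCentral K A] [IsSimpleRing A],
  (2 : F) ≠ 0 → (3 : F) ≠ 0 → finrank K A = 36 →
  ∃ (L : IntermediateField F K) (B : Type u) (_ : Ring B) (_ : Algebra L B),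
    Algebra.trdeg F L ≤ 3 ∧ Algebra.IsCentral L B ∧ IsSimpleRing B ∧ finrank L B = 36 ∧
    Nonempty ((K ⊗[L] B) ≃ₐ[K] A)

end Pool.Agent.Helper75.PX
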