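import Pool.Agent.Helper75.PX.Stmts3

set_option autoImplicit false

universe u

open Module TensorProduct
open scoped Kronecker

namespace Pool.Agent.Helper75.PX

/-- generators of a quaternion algebra in characteristic two -/
structure D2c {K A : Type*} [Field K] [Ring A] [Algebra K A] (i j : A) (a b : K) : Prop where
  hi : i * i = i + algebraMap K A a
  hj : j * j = algebraMap K A b
  hji : j * i = (i + 1) * j
  b0 : b ≠ 0

/-- no division algebras over a separably closed field -/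
def ST_SEPC : Prop := ∀ (K D : Type u) [Field K] [IsSepClosed K] [DivisionRing D] [Algebra K D]
  [Algebra.IsCentral K D] [FiniteDimensional K D], finrank K D = 1

/-- splitting over the separable closure -/
def ST_SPS : Prop := ∀ (K A : Type u) [Field K] [Ring A] [Algebra K A] [Algebra.IsCentral K A]
  [IsSimpleRing A] (n : ℕ), 0 < n → finrank K A = n ^ 2 →
  ∃ Ψ : A →ₐ[K] Matrix (Fin n) (Fin n) (SeparableClosure K),
    Submodule.span (SeparableClosure K) (Set.range Ψ) = ⊤

/-- splitting with rational traces -/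
def ST_TRR : Prop := ∀ (K A : Type u) [Field K] [Ring A] [Algebra K A] [Algebra.IsCentral K A]
  [IsSimpleRing A] (n : ℕ), 0 < n → finrank K A = n ^ 2 →
  ∃ Ψ : A →ₐ[K] Matrix (Fin n) (Fin n) (AlgebraicClosure K),
    Submodule.span (AlgebraicClosure K) (Set.range Ψ) = ⊤ ∧
    ∀ x : A, ∃ k : K, Matrix.trace (Ψ x) = algebraMap K (AlgebraicClosure K) k

/-- the element of `A ⊗ A` that maps to the flip, from rational traces -/
def ST_GOLt : Prop := ∀ (K A Ω : Type u) [Field K] [Ring A] [Algebra K A] [Field Ω] [Algebra K Ω]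
  (n : ℕ) (Ψ : A →ₐ[K] Matrix (Fin n) (Fin n) Ω),
  Submodule.span Ω (Set.range Ψ) = ⊤ → 0 < n → finrank K A = n ^ 2 →
  (∀ x : A, ∃ k : K, Matrix.trace (Ψ x) = algebraMap K Ω k) →
  ∃ (m : ℕ) (x y : Fin m → A), ∑ i, Ψ (x i) ⊗ₖ Ψ (y i) = Pm Ω (fl2 n)

/-- index of the square, every characteristic -/
def ST_IND2t : Prop := ∀ (K A : Type u) [Field K] [Ring A] [Algebra K A] [Algebra.IsCentral K A]
  [IsSimpleRing A] (n m : ℕ), 0 < n → finrank K A = n ^ 2 → 0 < m →
  (∀ δ : ℕ, δ ∣ n * n → δ ∣ n.choose 2 → δ ∣ m) → m ∣ n * n →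
  ∃ (B : Type u) (_ : Ring B) (_ : Algebra K B), Algebra.IsCentral K B ∧ IsSimpleRing B ∧
    finrank K B = m ^ 2 ∧
    Nonempty ((A ⊗[K] A) ≃ₐ[K] Matrix (Fin (n * n / m)) (Fin (n * n / m)) B)

/-- index of the cube, every characteristic -/
def ST_IND3t : Prop := ∀ (K A : Type u) [Field K] [Ring A] [Algebra K A] [Algebra.IsCentral K A]
  [IsSimpleRing A] (n m : ℕ), 0 < n → finrank K A = n ^ 2 → 0 < m →
  (∀ δ : ℕ, δ ∣ n * n * n → δ ∣ n.choose 3 → δ ∣ m) → m ∣ n * n * n →
  ∃ (B : Type u) (_ : Ring B) (_ : Algebra K B), Algebra.IsCentral K B ∧ IsSimpleRing B ∧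
    finrank K B = m ^ 2 ∧
    Nonempty (((A ⊗[K] A) ⊗[K] A) ≃ₐ[K]
      Matrix (Fin (n * n * n / m)) (Fin (n * n * n / m)) B)

/-- quaternion algebras in characteristic two -/
def ST_Q2 : Prop := ∀ (K Q : Type u) [Field K] [Ring Q] [Algebra K Q] [Algebra.IsCentral K Q]
  [IsSimpleRing Q], finrank K Q = 4 → (2 : K) = 0 →
  ∃ (i j : Q) (a b : K), D2c i j a b

/-- the four monomials are independent, characteristic two -/
def ST_B2c : Prop := ∀ (K A : Type u) [Field K] [Ring A] [Algebra K A] [Nontrivial A]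
  (i j : A) (a b : K), (2 : K) = 0 → D2c i j a b → LinearIndependent K (e2q i j)

/-- scaling, characteristic two -/
def ST_SC2c : Prop := ∀ (K A : Type u) [Field K] [Ring A] [Algebra K A] (i j : A)
  (a b g : K), g ≠ 0 → D2c i j a b → D2c i (g • j) a (b * g ^ 2)

/-- products of the four monomials, characteristic two -/
def ST_CL2c : Prop := ∀ (F K A : Type u) [Field F] [Field K] [Algebra F K] [Ring A] [Algebra K A]
  (L : IntermediateField F K) (i j : A) (a b : K), D2c i j a b → a ∈ L → b ∈ L →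
  ∀ s s', e2q i j s * e2q i j s' ∈ Submodule.span L (Set.range (e2q i j))

/-- degree three without cube roots of unity, also in characteristic two -/
def ST_C3d : Prop := ∀ (K A : Type u) [Field K] [Ring A] [Algebra K A] [Algebra.IsCentral K A]
  [IsSimpleRing A], finrank K A = 9 → (3 : K) ≠ 0 → (∃ s : K, s ≠ 0 ∧ s + 1 ≠ 0) →
  (∀ ζ : K, ζ ^ 2 + ζ + 1 ≠ 0) → ∃ (y u : A) (t c : K), D3c y u t c

/-- the field with two elements -/
def ST_FIN2 : Prop := ∀ (F K A : Type u) [Field F] [Field K] [Algebra F K]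
  [Ring A] [Algebra K A] [Algebra.IsCentral K A] [IsSimpleRing A],
  (∀ s : K, s = 0 ∨ s + 1 = 0) →
  ∃ (L : IntermediateField F K) (B : Type u) (_ : Ring B) (_ : Algebra L B),
    Algebra.trdeg F L ≤ 3 ∧ Algebra.IsCentral L B ∧ IsSimpleRing B ∧
    finrank L B = finrank K A ∧ Nonempty ((K ⊗[L] B) ≃ₐ[K] A)

/-- degree six over every field of characteristic not three -/
def ST_M6t : Prop := ∀ (F K A : Type u) [Field F] [Field K] [Algebra F K]
  [Ring A] [Algebra K A] [Algebra.IsCentral K A] [IsSimpleRing A],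
  (3 : F) ≠ 0 → finrank K A = 36 →
  ∃ (L : IntermediateField F K) (B : Type u) (_ : Ring B) (_ : Algebra L B),
    Algebra.trdeg F L ≤ 3 ∧ Algebra.IsCentral L B ∧ IsSimpleRing B ∧ finrank L B = 36 ∧
    Nonempty ((K ⊗[L] B) ≃ₐ[K] A)

end Pool.Agent.Helper75.PX
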