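import Pool.Agent.Helper75.PX.Stmts4

set_option autoImplicit false

universe u

open Module TensorProduct

namespace Pool.Agent.Helper75.PX

/-- generators of a cyclic algebra of degree three in characteristic three -/
structure D3a {K A : Type*} [Field K] [Ring A] [Algebra K A] (x j : A) (a c : K) : Prop where
  hx : x * x * x = x + algebraMap K A a
  hjx : j * x = (x + 1) * j
  hj : j * j * j = algebraMap K A c
  c0 : c ≠ 0

/-- two by two matrices over a quaternion algebra, also in characteristic three -/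
def ST_M4t : Prop := ∀ (K Q : Type u) [Field K] [Ring Q] [Algebra K Q], (2 : K) ≠ 0 →
  (∃ k : K, k ≠ 0 ∧ k ≠ 1 ∧ k ≠ -1) →
  ∀ (i j : Q) (x y : K), i * i = algebraMap K Q x → j * j = algebraMap K Q y →
    i * j = -(j * i) → x ≠ 0 → y ≠ 0 →
  ∃ (α β z w : Matrix (Fin 2) (Fin 2) Q) (a b p r : K) (v : Fin 4 → K), D4 α β z w a b p r v

/-- generators in degree four, also in characteristic three -/
def ST_C4t : Prop := ∀ (K A : Type u) [Field K] [Ring A] [Algebra K A] [Algebra.IsCentral K A]
  [IsSimpleRing A], finrank K A = 16 → (2 : K) ≠ 0 → (∃ k : K, k ≠ 0 ∧ k ≠ 1 ∧ k ≠ -1) →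
  ∃ (α β z w : A) (a b p r : K) (v : Fin 4 → K), D4 α β z w a b p r v

/-- the reduced trace in degree three -/
def ST_TAU : Prop := ∀ (K D : Type u) [Field K] [DivisionRing D] [Algebra K D]
  [Algebra.IsCentral K D], finrank K D = 9 →
  ∃ τ : D →ₗ[K] K, (∃ x, τ x ≠ 0) ∧
    ∀ v : D, (minpoly K v).natDegree = 3 → (minpoly K v).coeff 2 = -τ v

/-- an element with central cube, every characteristic -/
def ST_TZ3 : Prop := ∀ (K D : Type u) [Field K] [DivisionRing D] [Algebra K D]
  [Algebra.IsCentral K D], finrank K D = 9 →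
  ∃ (u : D) (c : K), u * u * u = algebraMap K D c ∧ ∀ k : K, u ≠ algebraMap K D k

/-- the Artin-Schreier generator -/
def ST_AX3 : Prop := ∀ (K D : Type u) [Field K] [DivisionRing D] [Algebra K D]
  [Algebra.IsCentral K D], finrank K D = 9 → (3 : K) = 0 → ∀ (u : D) (c : K),
  u * u * u = algebraMap K D c → (∀ k : K, u ≠ algebraMap K D k) →
  ∃ (x : D) (a : K), D3a x u a c

/-- degree three in characteristic three -/
def ST_C3a : Prop := ∀ (K A : Type u) [Field K] [Ring A] [Algebra K A] [Algebra.IsCentral K A]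
  [IsSimpleRing A], finrank K A = 9 → (3 : K) = 0 → ∃ (x j : A) (a c : K), D3a x j a c

/-- the nine monomials are independent, characteristic three -/
def ST_B3a : Prop := ∀ (K A : Type u) [Field K] [Ring A] [Algebra K A] [Nontrivial A]
  (x j : A) (a c : K), (3 : K) = 0 → D3a x j a c → LinearIndependent K (e3c x j)

/-- scaling, characteristic three -/
def ST_SC3a : Prop := ∀ (K A : Type u) [Field K] [Ring A] [Algebra K A] (x j : A)
  (a c g : K), g ≠ 0 → D3a x j a c → D3a x (g • j) a (c * g ^ 3)

/-- products of the nine monomials, characteristic three -/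
def ST_CL3a : Prop := ∀ (F K A : Type u) [Field F] [Field K] [Algebra F K] [Ring A] [Algebra K A]
  (L : IntermediateField F K) (x j : A) (a c : K), D3a x j a c → a ∈ L → c ∈ L →
  ∀ s s', e3c x j s * e3c x j s' ∈ Submodule.span L (Set.range (e3c x j))

/-- finite fields -/
def ST_FINK : Prop := ∀ (F K A : Type u) [Field F] [Field K] [Algebra F K]
  [Ring A] [Algebra K A] [Algebra.IsCentral K A] [IsSimpleRing A], Finite K →
  ∃ (L : IntermediateField F K) (B : Type u) (_ : Ring B) (_ : Algebra L B),
    Algebra.trdeg F L ≤ 6 ∧ Algebra.IsCentral L B ∧ IsSimpleRing B ∧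
    finrank L B = finrank K A ∧ Nonempty ((K ⊗[L] B) ≃ₐ[K] A)

/-- degree twelve over every field of characteristic not two -/
def ST_M12t : Prop := ∀ (F K A : Type u) [Field F] [Field K] [Algebra F K]
  [Ring A] [Algebra K A] [Algebra.IsCentral K A] [IsSimpleRing A],
  (2 : F) ≠ 0 → finrank K A = 144 →
  ∃ (L : IntermediateField F K) (B : Type u) (_ : Ring B) (_ : Algebra L B),
    Algebra.trdeg F L ≤ 6 ∧ Algebra.IsCentral L B ∧ IsSimpleRing B ∧ finrank L B = 144 ∧
    Nonempty ((K ⊗[L] B) ≃ₐ[K] A)

end Pool.Agent.Helper75.PX
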